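import Pool.Agent.Lib.MP_216314_pr.G.GGeo
import Pool.Agent.Lib.MP_216314_pr.P.PSymB

/-!
# The arm of a point of the hypotenuse is at least as probable as the crossing of the diagonal strip

Let `σ = shE a (4n-a)`, `D' = (dst (2n) K).map σ` (edges with both end points in `2n ≤ x + y ≤ 4n`, ...; `psymb_mem`, `mem_dst`).
* `TA_of_SA`: `first_hit` with `f w = max (a-n-w.1) (3n-a-w.2)`, `t = 0`: `f (a,4n-a) = -n`; at `v` with `v.1 + v.2 = 2n` the two numbers have sum `0`, so `f v ≥ 0`; `f` changes by at most `1` along an edge. The filtered edges have both end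
  points with `x ≥ a-n ≥ 0`, `y ≥ 3n-a ≥ 0` and sum `≤ 4n`: they are in `tri (4n)` and in `box (a-n) (a+n) (3n-a) (5n-a)`. The vertex `c` with `f c = 0` satisfies `c.1 = a-n` or `c.2 = 3n-a` and is in the box (`conn_mem_box`).
* `Pr_TA`: `sl (2n) K = Pr (dst (2n) K) (SA (2n) K) = Pr D' A'` with `A' ω := ∃ v, v.1 + v.2 = 2n ∧ Conn D' ω (a,4n-a) v` (`Pr_map`, `conn_map`, `cp_sh`), `≤ Pr (D' ∪ tri (4n)) A'` (`Pr_super` or `Pr_dep`)
  `≤ Pr (D' ∪ tri (4n)) (fun ω => TA n a (ω ∩ tri (4n)))` (`Pr_mono`) `= Pr (tri (4n)) (TA n a)` (`Pr_dep`, `Pr_congr`).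
-/

set_option autoImplicit false

noncomputable section

namespace FKG

open Finset FKI FKP

theorem garm_cut (E E' : Finset Edge) (A : Finset Edge → Prop) :
    Pr E A = Pr (E' ∪ E) (fun ω => A (ω ∩ E)) := by
  have h1 : Dep E (fun ω => A (ω ∩ E)) := by
    intro ω
    show A (ω ∩ E) ↔ A (ω ∩ E ∩ E)
    rw [Finset.inter_assoc, Finset.inter_self]
  rw [Pr_dep Finset.subset_union_right h1]
  refine Pr_congr fun ω hω => ?_
  rw [Finset.inter_eq_left.2 hω]

theorem garm_edge (e : Edge) : (ea e).1 ≤ (eb e).1 ∧ (ea e).2 ≤ (eb e).2 := by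
  obtain ⟨x, y, t⟩ := e
  cases t
  · simp [ea, eb]
  · simp [ea, eb]

theorem garm_mem {n K : ℕ} {a : ℤ} {e : Edge}
    (he : e ∈ (dst (2 * n) K).map (shE a (4 * n - a)).toEmbedding) :
    (eb e).1 + (eb e).2 ≤ 4 * (n : ℤ) := by
  rw [psymb_mem, mem_dst] at he
  obtain ⟨_, h2, _, _⟩ := he
  have h1 : (shE a (4 * (n : ℤ) - a)).symm e = (e.1 - a, e.2.1 - (4 * n - a), e.2.2) := rfl
  rw [h1] at h2
  obtain ⟨x, y, t⟩ := e
  cases t
  · simp [eb] at h2 ⊢
    omega
  · simp [eb] at h2 ⊢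
    omega

theorem TA_of_SA {n K : ℕ} (hn : 1 ≤ n) {a : ℤ} (ha : (n : ℤ) ≤ a) (ha' : a ≤ 3 * n) {ω : Finset Edge}
    (h : ∃ v : V, v.1 + v.2 = 2 * (n : ℤ) ∧
      Conn ((dst (2 * n) K).map (shE a (4 * n - a)).toEmbedding) ω (a, 4 * (n : ℤ) - a) v) :
    TA n a (ω ∩ tri (4 * n)) := by
  obtain ⟨v, hv, hc⟩ := h
  obtain ⟨c, c1, c2, c3⟩ := first_hit (fun w : V => max (a - n - w.1) (3 * n - a - w.2))
    (fun e _ => by
      have h1 := garm_edge e
      have h2 := eb_sum e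
      constructor
      · simp only [tsub_le_iff_right]
        omega
      · simp only [tsub_le_iff_right]
        omega) (t := 0)
    (show max (a - n - a) (3 * (n : ℤ) - a - (4 * (n : ℤ) - a)) ≤ 0 by omega)
    (show 0 ≤ max (a - n - v.1) (3 * (n : ℤ) - a - v.2) by omega) hc
  have h3 : Conn (box (a - n) (a + n) (3 * n - a) (5 * n - a)) (ω ∩ tri (4 * n))
      (a, 4 * (n : ℤ) - a) c := by
    unfold Conn at c3 ⊢
    refine SimpleGraph.Reachable.mono (gr_mono ?_) c3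
    intro e he
    rw [mem_inter, mem_filter] at he
    obtain ⟨he1, he2, he3, he4⟩ := he
    have hs := garm_mem he2
    rw [max_le_iff] at he3 he4
    have h1 := garm_edge e
    have h2 := eb_sum e
    rw [mem_inter, mem_inter]
    refine ⟨⟨he1, ?_⟩, ?_⟩
    · rw [mem_tri]
      push_cast
      exact ⟨by omega, by omega, hs⟩
    · rw [mem_box]
      obtain ⟨x, y, t⟩ := e
      cases t
      · simp [ea, eb] at he3 he4 hs ⊢
        omega
      · simp [ea, eb] at he3 he4 hs ⊢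
        omega
  have hm := conn_mem_box h3 ⟨by simp only; omega, by simp only; omega, by simp only; omega,
    by simp only; omega⟩
  rcases max_choice (a - n - c.1) (3 * n - a - c.2) with hx | hx
  · left
    have hce : c = (a - n, c.2) := Prod.ext (by simp only at c1 ⊢; omega) rfl
    refine ⟨c.2, hm.2.2.1, hm.2.2.2, ?_⟩
    rw [← hce]
    exact h3
  · right
    have hce : c = (c.1, 3 * n - a) := Prod.ext rfl (by simp only at c1 ⊢; omega)
    refine ⟨c.1, hm.1, hm.2.1, ?_⟩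
    rw [← hce]
    exact h3

theorem Pr_TA {n : ℕ} (hn : 1 ≤ n) (K : ℕ) {a : ℤ} (ha : (n : ℤ) ≤ a) (ha' : a ≤ 3 * n) :
    sl (2 * n) K ≤ Pr (tri (4 * n)) (TA n a) := by
  set σ := shE a (4 * (n : ℤ) - a) with hσ
  set D : Finset Edge := (dst (2 * n) K).map σ.toEmbedding with hD
  have h1 : sl (2 * n) K = Pr D (fun ω => ∃ v : V, v.1 + v.2 = 2 * (n : ℤ) ∧
      Conn D ω (a, 4 * (n : ℤ) - a) v) := by
    unfold sl
    rw [hD, Pr_map]
    refine Pr_congr fun ω _ => ?_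
    unfold SA
    have e0 : shV a (4 * (n : ℤ) - a) (0, 0) = (a, 4 * (n : ℤ) - a) := by
      show ((0 : ℤ) + a, (0 : ℤ) + (4 * n - a)) = (a, 4 * (n : ℤ) - a)
      rw [zero_add, zero_add]
    constructor
    · rintro ⟨v, hv, hc⟩
      refine ⟨shV a (4 * (n : ℤ) - a) v, ?_, ?_⟩
      · show v.1 + a + (v.2 + (4 * (n : ℤ) - a)) = 2 * n
        push_cast at hv
        omega
      · rw [← e0]
        exact (conn_map (cp_sh a (4 * n - a)) _ _ _ _).2 hc
    · rintro ⟨v, hv, hc⟩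
      refine ⟨(shV a (4 * (n : ℤ) - a)).symm v, ?_, ?_⟩
      · show v.1 - a + (v.2 - (4 * (n : ℤ) - a)) = -((2 * n : ℕ) : ℤ)
        push_cast
        omega
      · refine (conn_map (cp_sh a (4 * n - a)) _ _ _ _).1 ?_
        rw [e0, Equiv.apply_symm_apply]
        exact hc
  rw [h1, garm_cut (tri (4 * n)) D]
  have h2 : Inc (fun ω => ∃ v : V, v.1 + v.2 = 2 * (n : ℤ) ∧ Conn D ω (a, 4 * (n : ℤ) - a) v) := by
    rintro ω ω' hs ⟨v, hv, hc⟩
    exact ⟨v, hv, hc.mono (Finset.Subset.refl _) hs⟩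
  refine (Pr_super (E' := D ∪ tri (4 * n)) Finset.subset_union_left h2).trans ?_
  exact Pr_mono fun ω _ hω => TA_of_SA hn ha ha' hω

end FKG
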