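import Pool.Agent.Lib.MP_216314_pr.P.PBase

/-!
# Diagonal strips and the triangle: definitions

`dst L K`: edges of the square lattice with both end points in `-L ≤ x + y ≤ 0`, `|x - y| ≤ K`.
`SA L K`: `(0,0)` is connected inside it to the line `x + y = -L`; `sl L K` is the probability.
`StripLaw`: `sl L K` is of order `L^(-1/3)` for large `K`; `EvenLaw`: the same for even `L`.
`tri N`: edges of the triangle `x, y ≥ 0`, `x + y ≤ N`.
-/

set_option autoImplicit false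

noncomputable section

namespace FKG

open Finset FKI FKP

/-- edges with both end points in `-L ≤ x + y ≤ 0`, `|x - y| ≤ K` -/
def dst (L K : ℕ) : Finset Edge :=
  (box (-((L : ℤ) + K)) (L + K) (-((L : ℤ) + K)) (L + K)).filter (fun e =>
    -(L : ℤ) ≤ (ea e).1 + (ea e).2 ∧ (eb e).1 + (eb e).2 ≤ 0 ∧
    |(ea e).1 - (ea e).2| ≤ (K : ℤ) ∧ |(eb e).1 - (eb e).2| ≤ (K : ℤ))

/-- `(0,0)` is connected to the other side of the diagonal strip -/
def SA (L K : ℕ) (ω : Finset Edge) : Prop :=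
  ∃ v : V, v.1 + v.2 = -(L : ℤ) ∧ Conn (dst L K) ω (0, 0) v

/-- the probability of `SA` -/
def sl (L K : ℕ) : ℝ := Pr (dst L K) (SA L K)

/-- the law of the strip (proved by the other streams) -/
def StripLaw : Prop := ∃ c C : ℝ, 0 < c ∧ 0 < C ∧
  (∀ L K : ℕ, 1 ≤ L → sl L K ≤ C * (L : ℝ) ^ (-(1 / 3) : ℝ)) ∧
  (∀ L : ℕ, 1 ≤ L → ∃ K : ℕ, c * (L : ℝ) ^ (-(1 / 3) : ℝ) ≤ sl L K)

/-- the law of the strips of even width: this is all that is needed -/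
def EvenLaw : Prop := ∃ c C : ℝ, 0 < c ∧ 0 < C ∧
  (∀ n K : ℕ, 1 ≤ n → sl (2 * n) K ≤ C * (n : ℝ) ^ (-(1 / 3) : ℝ)) ∧
  (∀ n : ℕ, 1 ≤ n → ∃ K : ℕ, c * (n : ℝ) ^ (-(1 / 3) : ℝ) ≤ sl (2 * n) K)

/-- edges of the triangle `x, y ≥ 0`, `x + y ≤ N` -/
def tri (N : ℕ) : Finset Edge := (box 0 N 0 N).filter (fun e => (eb e).1 + (eb e).2 ≤ (N : ℤ))

theorem eb_sum (e : Edge) : (eb e).1 + (eb e).2 = (ea e).1 + (ea e).2 + 1 := by
  obtain ⟨x, y, t⟩ := e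
  cases t
  · simp [ea, eb]
    ring
  · simp [ea, eb]
    ring

theorem mem_tri {N : ℕ} {e : Edge} : e ∈ tri N ↔ 0 ≤ (ea e).1 ∧ 0 ≤ (ea e).2 ∧
    (eb e).1 + (eb e).2 ≤ (N : ℤ) := by
  unfold tri
  rw [mem_filter, mem_box]
  obtain ⟨x, y, t⟩ := e
  cases t
  · simp [ea, eb]
    omega
  · simp [ea, eb]
    omega

theorem mem_dst {L K : ℕ} {e : Edge} : e ∈ dst L K ↔
    -(L : ℤ) ≤ (ea e).1 + (ea e).2 ∧ (eb e).1 + (eb e).2 ≤ 0 ∧
    |(ea e).1 - (ea e).2| ≤ (K : ℤ) ∧ |(eb e).1 - (eb e).2| ≤ (K : ℤ) := by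
  unfold dst
  rw [mem_filter, mem_box]
  constructor
  · exact fun h => h.2
  · intro h
    refine ⟨?_, h⟩
    obtain ⟨h1, h2, h3, h4⟩ := h
    rw [abs_le] at h3 h4
    obtain ⟨x, y, t⟩ := e
    cases t
    · simp [ea, eb] at h1 h2 h3 h4 ⊢
      omega
    · simp [ea, eb] at h1 h2 h3 h4 ⊢
      omega

theorem inc_SA (L K : ℕ) : Inc (SA L K) := by
  rintro ω ω' hs ⟨v, h1, hc⟩
  exact ⟨v, h1, hc.mono (Finset.Subset.refl _) hs⟩

theorem dep_SA {L K : ℕ} {E : Finset Edge} (hE : dst L K ⊆ E) : Dep E (SA L K) := by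
  intro ω
  unfold SA
  constructor
  · rintro ⟨y, h1, hc⟩
    exact ⟨y, h1, (dep_Conn hE _ _ ω).1 hc⟩
  · rintro ⟨y, h1, hc⟩
    exact ⟨y, h1, (dep_Conn hE _ _ ω).2 hc⟩

/-- vertices connected to a vertex below the line `x + y = N` are below it, if all edges are -/
theorem reach_sum {N : ℤ} {ω : Finset Edge} (hω : ∀ e ∈ ω, (eb e).1 + (eb e).2 ≤ N) {u v : V}
    (hu : u.1 + u.2 ≤ N) (h : (gr ω).Reachable u v) : v.1 + v.2 ≤ N := by
  obtain ⟨p⟩ := h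
  induction p with
  | nil => exact hu
  | @cons u v w hadj p ih =>
    apply ih
    unfold gr at hadj
    rw [SimpleGraph.fromRel_adj] at hadj
    rcases hadj.2 with ⟨e, he, h1, h2⟩ | ⟨e, he, h1, h2⟩
    · have := hω e he
      rw [h2] at this
      exact this
    · have := hω e he
      rw [eb_sum, h1] at this
      omega

theorem tri_sum_le {N : ℕ} {ω : Finset Edge} (hω : ω ⊆ tri N) : ∀ e ∈ ω, (eb e).1 + (eb e).2 ≤ (N : ℤ) :=
  fun _ he => (mem_tri.1 (hω he)).2.2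

end FKG
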