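import Pool.Agent.Lib.MP_216314_pr.P.PCross
import Pool.Agent.Lib.MP_216314_pr.P.PExit
import Pool.Agent.Lib.MP_216314_pr.G.GDef

/-!
# Crossings of rectangles cut by the line `x + y = N`

`crossT`: the wide path goes from `(x1,yu)` to `p` which is on the right side or on the line `x + y = N`; the tall path from `(xv,y3)` to `r` on the upper side or on the line. Proof: let
`ω' = ω ∪ (Ico p.1 x2).image (fun x => (x, p.2, false)) ∪ (Ico r.2 y4).image (fun y => (r.1, y, true))` (two rays; the first one is empty if `p.1 = x2`, otherwise `p` is on the line; the second one is empty if `r.2 = y4`,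
otherwise `r` is on the line). In `ω'` the wide path goes on to `(x2, p.2)` and the tall path to `(r.1, y4)` (inside the boxes), so `cross` gives `(gr ω').Reachable (x1,yu) (xv,y3)`. Claim, by induction on the walk
(`SimpleGraph.reachable_iff_reflTransGen`, or on the last step): every `w` with `(gr ω').Reachable (x1,yu) w` satisfies one of
 (1) `w.1 + w.2 ≤ N ∧ (gr ω).Reachable (x1,yu) w`,
 (2) `w.2 = p.2 ∧ p.1 < w.1 ∧ w.1 ≤ x2 ∧ N < w.1 + w.2 ∧ (gr ω).Reachable (x1,yu) p`,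
 (3) `w.1 = r.1 ∧ r.2 < w.2 ∧ w.2 ≤ y4 ∧ N < w.1 + w.2 ∧ (gr ω).Reachable (x1,yu) r`.
Steps along an edge of `ω`: both ends have sum `≤ N`, so (1) → (1). Steps along the edge `(x,p.2)-(x+1,p.2)` of the first ray (`p.1 ≤ x < x2`, so `p` is on the line): at `(x,p.2)`, `x = p.1` we are in case (1) and go to case (2); at
`x > p.1` (sum `> N`) or at `(x+1,p.2)` we are in case (2) (case (3) is impossible: it needs `r.2 < y4`, `r.1 > p.1`, excluded by `hpr`; in case (3) `p.1 < x2` and `r.2 < y4`, so `r.1 < p.1`) and go to case (2), or to case (1) if the new vertex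
is `p`. Same for the second ray (case (2) is impossible there, by `hpr` again). At the end `w = (xv,y3)` has sum `≤ N`: case (1).
-/

set_option autoImplicit false

noncomputable section

namespace FKG

open Finset FKI FKP

private theorem GCross_closed {ω' : Finset Edge} {P : V → Prop}
    (h : ∀ e ∈ ω', (P (ea e) ↔ P (eb e))) {u v : V} (hr : (gr ω').Reachable u v) (hu : P u) :
    P v := by
  obtain ⟨p⟩ := hr
  induction p with
  | nil => exact hu
  | @cons u v w hadj p ih =>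
    obtain ⟨e, he, hends⟩ := pexit_adj hadj
    apply ih
    rcases hends with ⟨h3, h4⟩ | ⟨h3, h4⟩
    · rw [← h4, ← h e he, h3]
      exact hu
    · rw [← h3, h e he, h4]
      exact hu

private theorem GCross_ray1 {ω' : Finset Edge} {x1 x2 y1 y2 : ℤ} {p : V} (hx : x1 ≤ p.1)
    (hy : y1 ≤ p.2 ∧ p.2 ≤ y2) (hω : ∀ x : ℤ, p.1 ≤ x → x < x2 → ((x, p.2, false) : Edge) ∈ ω')
    {k : ℤ} (hk : p.1 ≤ k) : k ≤ x2 → Conn (box x1 x2 y1 y2) ω' p (k, p.2) := by
  induction k, hk using Int.leInduction with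
  | base => exact fun _ => Conn.refl _ _ _
  | succ k hk ih =>
    intro h2
    refine (ih (by omega)).trans (pexit_edge (e := (k, p.2, false)) ?_ (hω k hk (by omega)) (Or.inl ⟨rfl, rfl⟩))
    rw [mem_box]
    left
    exact ⟨rfl, by show x1 ≤ k; omega, by show k < x2; omega, hy.1, hy.2⟩

private theorem GCross_ray2 {ω' : Finset Edge} {x3 x4 y3 y4 : ℤ} {r : V} (hy : y3 ≤ r.2)
    (hx : x3 ≤ r.1 ∧ r.1 ≤ x4) (hω : ∀ y : ℤ, r.2 ≤ y → y < y4 → ((r.1, y, true) : Edge) ∈ ω')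
    {k : ℤ} (hk : r.2 ≤ k) : k ≤ y4 → Conn (box x3 x4 y3 y4) ω' r (r.1, k) := by
  induction k, hk using Int.leInduction with
  | base => exact fun _ => Conn.refl _ _ _
  | succ k hk ih =>
    intro h2
    refine (ih (by omega)).trans (pexit_edge (e := (r.1, k, true)) ?_ (hω k hk (by omega)) (Or.inl ⟨rfl, rfl⟩))
    rw [mem_box]
    right
    exact ⟨rfl, hx.1, hx.2, by show y3 ≤ k; omega, by show k < y4; omega⟩

theorem crossT {N : ℤ} {ω : Finset Edge} (hω : ∀ e ∈ ω, (eb e).1 + (eb e).2 ≤ N)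
    {x1 x2 y1 y2 x3 x4 y3 y4 : ℤ} (h1 : x1 ≤ x3) (h2 : x4 ≤ x2) (h3 : y3 ≤ y1) (h4 : y2 ≤ y4)
    {yu xv : ℤ} {p r : V} (hu : y1 ≤ yu ∧ yu ≤ y2) (huN : x1 + yu ≤ N)
    (hp : p.1 ≤ x2 ∧ y1 ≤ p.2 ∧ p.2 ≤ y2) (hpN : p.1 + p.2 ≤ N)
    (hp' : p.1 = x2 ∨ p.1 + p.2 = N)
    (hv : x3 ≤ xv ∧ xv ≤ x4) (hvN : xv + y3 ≤ N)
    (hr : x3 ≤ r.1 ∧ r.1 ≤ x4 ∧ r.2 ≤ y4) (hrN : r.1 + r.2 ≤ N)
    (hr' : r.2 = y4 ∨ r.1 + r.2 = N) (hpr : r.1 < p.1 ∨ p.1 = x2 ∨ r.2 = y4)
    (hc : Conn (box x1 x2 y1 y2) ω (x1, yu) p) (hd : Conn (box x3 x4 y3 y4) ω (xv, y3) r) :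
    (gr ω).Reachable (x1, yu) (xv, y3) := by
  obtain ⟨R1, hR1⟩ : ∃ R : Finset Edge, R = (Ico p.1 x2).image (fun x => ((x, p.2, false) : Edge)) :=
    ⟨_, rfl⟩
  obtain ⟨R2, hR2⟩ : ∃ R : Finset Edge, R = (Ico r.2 y4).image (fun y => ((r.1, y, true) : Edge)) :=
    ⟨_, rfl⟩
  have hxp := (conn_mem_box hc ⟨le_rfl, by show x1 ≤ x2; omega, hu.1, hu.2⟩).1
  have hyr := (conn_mem_box hd ⟨hv.1, hv.2, le_rfl, by show y3 ≤ y4; omega⟩).2.2.1
  have hsub : ω ⊆ ω ∪ (R1 ∪ R2) := subset_union_left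
  have hray1 : Conn (box x1 x2 y1 y2) (ω ∪ (R1 ∪ R2)) p (x2, p.2) := by
    refine GCross_ray1 hxp hp.2 (fun x hx1 hx2 => ?_) hp.1 le_rfl
    rw [mem_union, mem_union, hR1, mem_image]
    exact Or.inr (Or.inl ⟨x, mem_Ico.2 ⟨hx1, hx2⟩, rfl⟩)
  have hray2 : Conn (box x3 x4 y3 y4) (ω ∪ (R1 ∪ R2)) r (r.1, y4) := by
    refine GCross_ray2 hyr ⟨hr.1, hr.2.1⟩ (fun y hy1 hy2 => ?_) hr.2.2 le_rfl
    rw [mem_union, mem_union, hR2, mem_image]
    exact Or.inr (Or.inr ⟨y, mem_Ico.2 ⟨hy1, hy2⟩, rfl⟩)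
  have hcross : (gr (ω ∪ (R1 ∪ R2))).Reachable (x1, yu) (xv, y3) :=
    cross h1 h2 h3 h4 hu hp.2 hv ⟨hr.1, hr.2.1⟩
      ((hc.mono (Finset.Subset.refl _) hsub).trans hray1)
      ((hd.mono (Finset.Subset.refl _) hsub).trans hray2)
  have hPa : (((x1, yu) : V).1 + ((x1, yu) : V).2 ≤ N ∧ (gr ω).Reachable (x1, yu) (x1, yu)) :=
    ⟨huN, SimpleGraph.Reachable.refl _⟩
  have key := GCross_closed (ω' := ω ∪ (R1 ∪ R2)) (P := fun w : V =>
    (w.1 + w.2 ≤ N ∧ (gr ω).Reachable (x1, yu) w) ∨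
    (w.2 = p.2 ∧ p.1 < w.1 ∧ w.1 ≤ x2 ∧ N < w.1 + w.2 ∧ (gr ω).Reachable (x1, yu) p) ∨
    (w.1 = r.1 ∧ r.2 < w.2 ∧ w.2 ≤ y4 ∧ N < w.1 + w.2 ∧ (gr ω).Reachable (x1, yu) r))
    ?_ hcross (Or.inl hPa)
  · rcases key with h | h | h
    · exact h.2
    · have h5 : N < xv + y3 := h.2.2.2.1
      omega
    · have h5 : N < xv + y3 := h.2.2.2.1
      omega
  intro e he
  rw [mem_union, mem_union] at he
  rcases he with he | he | he
  · -- an edge of `ω`
    have e1 := hω e he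
    have e2 := eb_sum e
    have hab : (gr ω).Reachable (ea e) (eb e) :=
      (pexit_edge (F := ω) he he (Or.inl ⟨rfl, rfl⟩)).reach
    have e3 : (gr ω).Reachable (x1, yu) (ea e) ↔ (gr ω).Reachable (x1, yu) (eb e) :=
      ⟨fun h => h.trans hab, fun h => h.trans hab.symm⟩
    show _ ∨ _ ∨ _ ↔ _ ∨ _ ∨ _
    constructor
    · rintro (h | h | h)
      · exact Or.inl ⟨e1, e3.1 h.2⟩
      · have := h.2.2.2.1
        omega
      · have := h.2.2.2.1
        omega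
    · rintro (h | h | h)
      · exact Or.inl ⟨by omega, e3.2 h.2⟩
      · have := h.2.2.2.1
        omega
      · have := h.2.2.2.1
        omega
  · -- the first ray
    rw [hR1, mem_image] at he
    obtain ⟨x, hx, rfl⟩ := he
    rw [mem_Ico] at hx
    have hline : p.1 + p.2 = N := by
      rcases hp' with h | h
      · omega
      · exact h
    show (x + p.2 ≤ N ∧ (gr ω).Reachable (x1, yu) (x, p.2)) ∨
      (p.2 = p.2 ∧ p.1 < x ∧ x ≤ x2 ∧ N < x + p.2 ∧ (gr ω).Reachable (x1, yu) p) ∨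
      (x = r.1 ∧ r.2 < p.2 ∧ p.2 ≤ y4 ∧ N < x + p.2 ∧ (gr ω).Reachable (x1, yu) r) ↔
      (x + 1 + p.2 ≤ N ∧ (gr ω).Reachable (x1, yu) (x + 1, p.2)) ∨
      (p.2 = p.2 ∧ p.1 < x + 1 ∧ x + 1 ≤ x2 ∧ N < x + 1 + p.2 ∧ (gr ω).Reachable (x1, yu) p) ∨
      (x + 1 = r.1 ∧ r.2 < p.2 ∧ p.2 ≤ y4 ∧ N < x + 1 + p.2 ∧ (gr ω).Reachable (x1, yu) r)
    constructor
    · rintro (h | h | h)
      · have hxe : x = p.1 := by omega
        have hpp : ((x, p.2) : V) = p := by rw [hxe]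
        rw [hpp] at h
        exact Or.inr (Or.inl ⟨rfl, by omega, by omega, by omega, h.2⟩)
      · exact Or.inr (Or.inl ⟨rfl, by omega, by omega, by omega, h.2.2.2.2⟩)
      · exfalso
        rcases hpr with h6 | h6 | h6
        · omega
        · omega
        · omega
    · rintro (h | h | h)
      · omega
      · by_cases hxe : x = p.1
        · have hpp : ((x, p.2) : V) = p := by rw [hxe]
          rw [hpp]
          exact Or.inl ⟨by omega, h.2.2.2.2⟩
        · exact Or.inr (Or.inl ⟨rfl, by omega, by omega, by omega, h.2.2.2.2⟩)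
      · exfalso
        rcases hpr with h6 | h6 | h6
        · omega
        · omega
        · omega
  · -- the second ray
    rw [hR2, mem_image] at he
    obtain ⟨y, hy, rfl⟩ := he
    rw [mem_Ico] at hy
    have hline : r.1 + r.2 = N := by
      rcases hr' with h | h
      · omega
      · exact h
    show (r.1 + y ≤ N ∧ (gr ω).Reachable (x1, yu) (r.1, y)) ∨
      (y = p.2 ∧ p.1 < r.1 ∧ r.1 ≤ x2 ∧ N < r.1 + y ∧ (gr ω).Reachable (x1, yu) p) ∨
      (r.1 = r.1 ∧ r.2 < y ∧ y ≤ y4 ∧ N < r.1 + y ∧ (gr ω).Reachable (x1, yu) r) ↔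
      (r.1 + (y + 1) ≤ N ∧ (gr ω).Reachable (x1, yu) (r.1, y + 1)) ∨
      (y + 1 = p.2 ∧ p.1 < r.1 ∧ r.1 ≤ x2 ∧ N < r.1 + (y + 1) ∧ (gr ω).Reachable (x1, yu) p) ∨
      (r.1 = r.1 ∧ r.2 < y + 1 ∧ y + 1 ≤ y4 ∧ N < r.1 + (y + 1) ∧ (gr ω).Reachable (x1, yu) r)
    constructor
    · rintro (h | h | h)
      · have hye : y = r.2 := by omega
        have hrr : ((r.1, y) : V) = r := by rw [hye]
        rw [hrr] at h
        exact Or.inr (Or.inr ⟨rfl, by omega, by omega, by omega, h.2⟩)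
      · exfalso
        rcases hpr with h6 | h6 | h6
        · omega
        · omega
        · omega
      · exact Or.inr (Or.inr ⟨rfl, by omega, by omega, by omega, h.2.2.2.2⟩)
    · rintro (h | h | h)
      · omega
      · exfalso
        rcases hpr with h6 | h6 | h6
        · omega
        · omega
        · omega
      · by_cases hye : y = r.2
        · have hrr : ((r.1, y) : V) = r := by rw [hye]
          rw [hrr]
          exact Or.inl ⟨by omega, h.2.2.2.2⟩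
        · exact Or.inr (Or.inr ⟨rfl, by omega, by omega, by omega, h.2.2.2.2⟩)

end FKG
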