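import Pool.Agent.Lib.MP_216314_pr.G.GGeo
import Pool.Agent.Lib.MP_216314_pr.P.PSymC
import Pool.Agent.Lib.MP_216314_pr.P.PLong

/-!
# Probabilities of the pieces

* `RV_of_VC`: `first_hit` with `f w = w.1 + w.2`, `t = 4n`: at the lower side the sum is `≤ a - s ≤ 4n`, at the upper side `≥ (a-n) + (5n-a) = 4n`. The filtered edges are in `tri (4n)` (`mem_tri`), so the first part of the path is open in
  `ω ∩ tri (4n)`; the end point is in the box by `conn_mem_box`. `RH_of_HC`: the same, left side sum `≤ 4n-a-s`, right side sum `≥ (a+n) + (3n-a) = 4n`.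
* `Pr_RV`: with `E' = tri (4n) ∪ box (a-n) (a-s) 0 (5n-a)`: `Pr (tri (4n)) (RV n s a) = Pr (tri (4n)) (fun ω => RV n s a (ω ∩ tri (4n)))` (`Pr_congr`) `= Pr E' (same)` (`Pr_dep`) `≥ Pr E' (VC ..)` (`Pr_mono`, `RV_of_VC`)
  `= h b (n-s)` (`Pr_VC`, see its use in PUp) with `b : ℕ`, `b = 5n-a` (`Int.toNat`), `b ≤ 4n ≤ 8(n-s)`. `Pr_RH`: the same with `HC 0 (a+n) (3n-a) (4n-a-s)`, length `a + n ≤ 3n ≤ 8(n-s)`.
-/

set_option autoImplicit false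

noncomputable section

namespace FKG

open Finset FKI FKP

theorem gest_cut (E E' : Finset Edge) (A : Finset Edge → Prop) :
    Pr E A = Pr (E ∪ E') (fun ω => A (ω ∩ E)) := by
  have h1 : Dep E (fun ω => A (ω ∩ E)) := by
    intro ω
    show A (ω ∩ E) ↔ A (ω ∩ E ∩ E)
    rw [Finset.inter_assoc, Finset.inter_self]
  rw [Pr_dep Finset.subset_union_left h1]
  refine Pr_congr fun ω hω => ?_
  rw [Finset.inter_eq_left.2 hω]

theorem gest_sum (e : Edge) : (ea e).1 + (ea e).2 - ((eb e).1 + (eb e).2) ≤ 1 ∧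
    (eb e).1 + (eb e).2 - ((ea e).1 + (ea e).2) ≤ 1 := by
  have := eb_sum e
  omega

/-- the part of a path up to the line `x + y = 4 n` is in the triangle -/
theorem gest_conn {n : ℕ} {x1 x2 y1 y2 : ℤ} (h1 : 0 ≤ x1) (h2 : 0 ≤ y1) {ω : Finset Edge} {u : V}
    {v : V} (hu : u.1 + u.2 ≤ 4 * (n : ℤ)) (hv : 4 * (n : ℤ) ≤ v.1 + v.2)
    (hc : Conn (box x1 x2 y1 y2) ω u v) : ∃ c : V, c.1 + c.2 = 4 * (n : ℤ) ∧
      Conn (box x1 x2 y1 y2) (ω ∩ tri (4 * n)) u c := by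
  obtain ⟨c, c1, c2, c3⟩ := first_hit (fun w : V => w.1 + w.2) (fun e _ => gest_sum e) (t := 4 * (n : ℤ))
    hu hv hc
  refine ⟨c, c1, ?_⟩
  unfold Conn at c3 ⊢
  refine SimpleGraph.Reachable.mono (gr_mono ?_) c3
  intro e he
  rw [mem_inter, mem_filter] at he
  obtain ⟨he1, he2, he3, he4⟩ := he
  have hb := pexit_box he2
  rw [mem_inter, mem_inter]
  refine ⟨⟨he1, ?_⟩, he2⟩
  rw [mem_tri]
  push_cast
  exact ⟨by omega, by omega, he4⟩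

theorem RV_of_VC {n s : ℕ} (hs : s < n) {a : ℤ} (ha : (n : ℤ) ≤ a) (ha' : a ≤ 2 * n) {ω : Finset Edge}
    (h : VC (a - n) (a - s) 0 (5 * n - a) ω) : RV n s a (ω ∩ tri (4 * n)) := by
  obtain ⟨x, x', h1, h2, h3, h4, hc⟩ := h
  obtain ⟨c, c1, c2⟩ := gest_conn (n := n) (u := (x, 0)) (v := (x', 5 * (n : ℤ) - a)) (by omega) le_rfl
    (by simp only; omega) (by simp only; omega) hc
  have hm := conn_mem_box c2 ⟨h1, h2, le_rfl, by simp only; omega⟩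
  exact ⟨x, c, h1, h2, hm.1, hm.2.1, c1, c2⟩

theorem RH_of_HC {n s : ℕ} (hs : s < n) {a : ℤ} (ha : (n : ℤ) ≤ a) (ha' : a ≤ 2 * n) {ω : Finset Edge}
    (h : HC 0 (a + n) (3 * n - a) (4 * n - a - s) ω) : RH n s a (ω ∩ tri (4 * n)) := by
  obtain ⟨x, x', h1, h2, h3, h4, hc⟩ := h
  obtain ⟨c, c1, c2⟩ := gest_conn (n := n) (u := (0, x)) (v := (a + (n : ℤ), x')) le_rfl (by omega)
    (by simp only; omega) (by simp only; omega) hc
  have hm := conn_mem_box c2 ⟨le_rfl, by simp only; omega, h1, h2⟩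
  exact ⟨x, c, h1, h2, hm.2.2.1, hm.2.2.2, c1, c2⟩

theorem Pr_RV {n s : ℕ} (hs : s < n) {a : ℤ} (ha : (n : ℤ) ≤ a) (ha' : a ≤ 2 * n) {c : ℝ}
    (hc : ∀ x y : ℕ, 1 ≤ y → x ≤ 8 * y → c ≤ h x y) (h2 : n ≤ 2 * (n - s)) :
    c ≤ Pr (tri (4 * n)) (RV n s a) := by
  obtain ⟨b, hb⟩ : ∃ b : ℕ, (b : ℤ) = 5 * n - a := ⟨(5 * (n : ℤ) - a).toNat, by omega⟩
  rw [gest_cut (tri (4 * n)) (box (a - n) (a - s) 0 (5 * n - a))]
  refine le_trans ?_ (Pr_mono fun ω _ hω => RV_of_VC hs ha ha' hω)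
  rw [Pr_VC (n - s) b (by omega) (by omega) Finset.subset_union_right]
  exact hc _ _ (by omega) (by omega)

theorem Pr_RH {n s : ℕ} (hs : s < n) {a : ℤ} (ha : (n : ℤ) ≤ a) (ha' : a ≤ 2 * n) {c : ℝ}
    (hc : ∀ x y : ℕ, 1 ≤ y → x ≤ 8 * y → c ≤ h x y) (h2 : n ≤ 2 * (n - s)) :
    c ≤ Pr (tri (4 * n)) (RH n s a) := by
  obtain ⟨b, hb⟩ : ∃ b : ℕ, (b : ℤ) = a + n := ⟨(a + (n : ℤ)).toNat, by omega⟩
  rw [gest_cut (tri (4 * n)) (box 0 (a + n) (3 * n - a) (4 * n - a - s))]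
  refine le_trans ?_ (Pr_mono fun ω _ hω => RH_of_HC hs ha ha' hω)
  rw [Pr_HC b (n - s) (by omega) (by omega) Finset.subset_union_right]
  exact hc _ _ (by omega) (by omega)

end FKG
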