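import Pool.Agent.Lib.MP_216314_pr.G.GDef
import Pool.Agent.Lib.MP_216314_pr.P.PExit
import Pool.Agent.Lib.MP_216314_pr.P.PSymB

/-!
# The upper half: a point of the hypotenuse connected to the corner has an arm of its own, and so has the corner

Let `E = tri (4k)`, `v = (a, 4k-a)`, `Fs = E.filter (fun e => 2k ≤ (ea e).1 + (ea e).2)`, `B ω := ∃ c, c.1 + c.2 = 2k ∧ Conn Fs ω v c`.
1. For `ω ⊆ E` with `(gr ω).Reachable (0,0) v` (`Conn.of_reach`): `first_hit` with `f w = max w.1 w.2`, `t = k` (`f v ≥ 2k`), all edges of `E` have non negative end points, so the filtered edges are in `box 0 k 0 k`: `QA k ω`.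
2. `last_exit` with `f w = w.1 + w.2`, `t = 2k` (`f v = 4k`): the filtered edges are in `Fs`: `B ω`.
3. `box 0 k 0 k` (sums of `eb` at most `2k`, so of `ea` at most `2k-1`, `eb_sum`) and `Fs` are disjoint subsets of `E`: `Pr_indep`: `Pr E (QA k ∧ B) = Pr E (QA k) * Pr E B = piQ k * Pr Fs B` (`Pr_dep`, `dep_QA`, `dep_Conn`).
4. With `σ = shE (-a) (a - 4k)` (translation, `conn_map`, `cp_sh`, `Pr_map`, `psymb_mem`): `Pr Fs B = Pr (Fs.map σ) B'`, `B' ω := ∃ c, c.1 + c.2 = -2k ∧ Conn (Fs.map σ) ω (0,0) c`; `Fs.map σ ⊆ dst (2k) K` (`mem_dst`; a vertex `w` of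
   the triangle goes to `w - v` with `|(w.1 - a) - (w.2 - 4k + a)| ≤ 8k ≤ K`); `Pr_super` (`B'` is increasing) and `Pr_mono` (`Conn.mono`): `≤ Pr (dst (2k) K) (SA (2k) K)`.
-/

set_option autoImplicit false

noncomputable section

namespace FKG

open Finset FKI FKP

theorem gup_edge (e : Edge) : (ea e).1 ≤ (eb e).1 ∧ (ea e).2 ≤ (eb e).2 := by
  obtain ⟨x, y, t⟩ := e
  cases t
  · simp [ea, eb]
  · simp [ea, eb]

/-- edges of the triangle near the hypotenuse -/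
def gup_F (k : ℕ) : Finset Edge := (tri (4 * k)).filter (fun e => 2 * (k : ℤ) ≤ (ea e).1 + (ea e).2)

/-- the arm of the point of the hypotenuse -/
def gup_B (k : ℕ) (a : ℤ) (ω : Finset Edge) : Prop :=
  ∃ c : V, c.1 + c.2 = 2 * (k : ℤ) ∧ Conn (gup_F k) ω (a, 4 * (k : ℤ) - a) c

theorem gup_QA {k : ℕ} (hk : 1 ≤ k) {a : ℤ} {ω : Finset Edge} (hω : ω ⊆ tri (4 * k))
    (h : (gr ω).Reachable (0, 0) (a, 4 * (k : ℤ) - a)) : QA k ω := by
  have hc := Conn.of_reach hω h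
  obtain ⟨c, c1, c2, c3⟩ := first_hit (fun w : V => max w.1 w.2)
    (fun e _ => by
      have h1 := gup_edge e
      have h2 := eb_sum e
      constructor
      · simp only [tsub_le_iff_right]
        omega
      · simp only [tsub_le_iff_right]
        omega) (t := (k : ℤ))
    (show max (0 : ℤ) 0 ≤ k by omega)
    (show (k : ℤ) ≤ max a (4 * (k : ℤ) - a) by omega) hc
  have h3 : Conn (box 0 k 0 k) ω (0, 0) c := by
    unfold Conn at c3 ⊢
    refine SimpleGraph.Reachable.mono (gr_mono ?_) c3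
    intro e he
    rw [mem_inter, mem_filter] at he
    obtain ⟨he1, he2, he3, he4⟩ := he
    rw [mem_tri] at he2
    obtain ⟨g1, g2, g3⟩ := he2
    rw [max_le_iff] at he3 he4
    rw [mem_inter]
    refine ⟨he1, ?_⟩
    rw [mem_box]
    obtain ⟨x, y, t⟩ := e
    cases t
    · simp [ea, eb] at g1 g2 g3 he3 he4 ⊢
      omega
    · simp [ea, eb] at g1 g2 g3 he3 he4 ⊢
      omega
  have hm := conn_mem_box h3 ⟨le_rfl, by simp only; omega, le_rfl, by simp only; omega⟩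
  rcases max_choice c.1 c.2 with hx | hx
  · left
    have hce : c = ((k : ℤ), c.2) := Prod.ext (by simp only at c1 ⊢; omega) rfl
    refine ⟨c.2, hm.2.2.1, hm.2.2.2, ?_⟩
    rw [← hce]
    exact h3
  · right
    have hce : c = (c.1, (k : ℤ)) := Prod.ext rfl (by simp only at c1 ⊢; omega)
    refine ⟨c.1, hm.1, hm.2.1, ?_⟩
    rw [← hce]
    exact h3

theorem gup_arm {k : ℕ} {a : ℤ} {ω : Finset Edge} (hω : ω ⊆ tri (4 * k))
    (h : (gr ω).Reachable (0, 0) (a, 4 * (k : ℤ) - a)) : gup_B k a ω := by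
  have hc := Conn.of_reach hω h
  obtain ⟨c, c1, c2, c3⟩ := last_exit (fun w : V => w.1 + w.2)
    (fun e _ => by
      have h2 := eb_sum e
      constructor
      · simp only [tsub_le_iff_right]
        omega
      · simp only [tsub_le_iff_right]
        omega) (t := 2 * (k : ℤ))
    (show (0 : ℤ) + 0 ≤ 2 * k by omega)
    (show 2 * (k : ℤ) ≤ a + (4 * (k : ℤ) - a) by omega) hc
  refine ⟨c, c1, (Conn.mono ?_ (Finset.Subset.refl _) c3).symm⟩
  intro e he
  rw [mem_filter] at he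
  unfold gup_F
  rw [mem_filter]
  exact ⟨he.1, he.2.1⟩

theorem gup_disj (k : ℕ) : Disjoint (box 0 k 0 k) (gup_F k) := by
  rw [Finset.disjoint_left]
  intro e he hf
  unfold gup_F at hf
  rw [mem_filter] at hf
  have h1 := pexit_box he
  have h2 := eb_sum e
  omega

theorem gup_sub {k K : ℕ} (hK : 8 * k ≤ K) {a : ℤ} (ha : 0 ≤ a) (ha' : a ≤ 4 * k) :
    (gup_F k).map (shE (-a) (a - 4 * k)).toEmbedding ⊆ dst (2 * k) K := by
  intro e he
  rw [psymb_mem] at he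
  unfold gup_F at he
  rw [mem_filter, mem_tri] at he
  have h1 : (shE (-a) (a - 4 * k)).symm e = (e.1 - -a, e.2.1 - (a - 4 * k), e.2.2) := rfl
  rw [h1] at he
  obtain ⟨⟨g1, g2, g3⟩, g4⟩ := he
  rw [mem_dst, abs_le, abs_le]
  obtain ⟨x, y, t⟩ := e
  cases t
  · simp [ea, eb] at g1 g2 g3 g4 ⊢
    omega
  · simp [ea, eb] at g1 g2 g3 g4 ⊢
    omega

theorem gup_B_le {k K : ℕ} (hK : 8 * k ≤ K) {a : ℤ} (ha : 0 ≤ a) (ha' : a ≤ 4 * k) :
    Pr (gup_F k) (gup_B k a) ≤ sl (2 * k) K := by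
  set σ := shE (-a) (a - 4 * k) with hσ
  have h1 : Pr (gup_F k) (gup_B k a) = Pr ((gup_F k).map σ.toEmbedding)
      (fun ω => ∃ c : V, c.1 + c.2 = -(2 * (k : ℤ)) ∧ Conn ((gup_F k).map σ.toEmbedding) ω (0, 0) c) := by
    rw [Pr_map]
    refine Pr_congr fun ω _ => ?_
    have e0 : shV (-a) (a - 4 * k) (a, 4 * (k : ℤ) - a) = (0, 0) := by
      show (a + -a, 4 * (k : ℤ) - a + (a - 4 * k)) = (0, 0)
      rw [Prod.mk.injEq]
      exact ⟨by ring, by ring⟩
    constructor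
    · rintro ⟨c, c1, hc⟩
      refine ⟨shV (-a) (a - 4 * k) c, ?_, ?_⟩
      · show c.1 + -a + (c.2 + (a - 4 * (k : ℤ))) = -(2 * k)
        omega
      · rw [← e0]
        exact (conn_map (cp_sh (-a) (a - 4 * k)) _ _ _ _).2 hc
    · rintro ⟨c, c1, hc⟩
      refine ⟨(shV (-a) (a - 4 * k)).symm c, ?_, ?_⟩
      · show c.1 - -a + (c.2 - (a - 4 * (k : ℤ))) = 2 * k
        omega
      · refine (conn_map (cp_sh (-a) (a - 4 * k)) _ _ _ _).1 ?_
        rw [e0, Equiv.apply_symm_apply]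
        exact hc
  rw [h1]
  have h2 : Inc (fun ω => ∃ c : V, c.1 + c.2 = -(2 * (k : ℤ)) ∧
      Conn ((gup_F k).map σ.toEmbedding) ω (0, 0) c) := by
    rintro ω ω' hs ⟨v, hv, hc⟩
    exact ⟨v, hv, hc.mono (Finset.Subset.refl _) hs⟩
  refine (Pr_super (gup_sub hK ha ha') h2).trans ?_
  refine Pr_mono fun ω _ hω => ?_
  obtain ⟨c, c1, hc⟩ := hω
  refine ⟨c, ?_, hc.mono (gup_sub hK ha ha') (Finset.Subset.refl _)⟩
  push_cast
  omega

theorem up_pt {k K : ℕ} (hk : 1 ≤ k) (hK : 8 * k ≤ K) {a : ℤ} (ha : 0 ≤ a) (ha' : a ≤ 4 * k) :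
    Pr (tri (4 * k)) (fun ω => (gr ω).Reachable (0, 0) (a, 4 * (k : ℤ) - a)) ≤
      piQ k * sl (2 * k) K := by
  have hF : box 0 (k : ℤ) 0 k ⊆ tri (4 * k) := by
    intro e he
    have hb := pexit_box he
    rw [mem_tri]
    push_cast
    exact ⟨by omega, by omega, by omega⟩
  have hG : gup_F k ⊆ tri (4 * k) := Finset.filter_subset _ _
  have hB : Dep (gup_F k) (gup_B k a) := by
    intro ω
    unfold gup_B
    constructor
    · rintro ⟨c, c1, hc⟩
      exact ⟨c, c1, (dep_Conn (Finset.Subset.refl _) _ _ ω).1 hc⟩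
    · rintro ⟨c, c1, hc⟩
      exact ⟨c, c1, (dep_Conn (Finset.Subset.refl _) _ _ ω).2 hc⟩
  have h1 : Pr (tri (4 * k)) (fun ω => (gr ω).Reachable (0, 0) (a, 4 * (k : ℤ) - a)) ≤
      Pr (tri (4 * k)) (fun ω => QA k ω ∧ gup_B k a ω) :=
    Pr_mono fun ω hω hh => ⟨gup_QA hk hω hh, gup_arm hω hh⟩
  refine h1.trans ?_
  rw [Pr_indep hF hG (gup_disj k) (dep_QA (Finset.Subset.refl _)) hB,
    Pr_dep hF (dep_QA (Finset.Subset.refl _)), Pr_dep hG hB]
  exact mul_le_mul_of_nonneg_left (gup_B_le hK ha ha') (Pr_nonneg _ _)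

end FKG
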