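import Pool.Agent.Lib.MP_216314_pr.G.GLow
import Pool.Agent.Lib.MP_216314_pr.G.GUp
import Pool.Agent.Lib.MP_216314_pr.P.PFin

/-!
# The exponents of the corner arm and of the boundary arm

* `up`: `tri_sum (4k)` and `up_pt` for `a = 4k - b`.
* `evenLaw_of_stripLaw`: `(2n)^(-1/3) ≤ n^(-1/3)` and `(2n)^(-1/3) ≥ (1/2) n^(-1/3)` (`Real.mul_rpow`, `2^(-1/3) ≥ 2^(-1)`).
* `exponents`: let `c0, C0` be the constants of `EvenLaw`, `C1` the one of `low`, `C2` the one of `arm_product`.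
  `piQ n ≥ 1/(5 C0) n^(-2/3)`: `up` with `k = n`, `K = 8n`, `4n+1 ≤ 5n`, `sl (2n) K ≤ C0 n^(-1/3)`, `n * n^(-1/3) = n^(2/3)`.
  `piQ n ≤ (C1/c0) n^(-2/3)`: `K` with `c0 n^(-1/3) ≤ sl (2n) K`, `low`.
  `piH n ≥ 1/(2(n+1) piQ n) ≥ 1/(4 n piQ n)`, `piH n ≤ C2/(n piQ n)` (`arm_product`), and the bounds for `piQ`.
-/

set_option autoImplicit false

noncomputable section

namespace FKG

open Finset FKI FKP

theorem up {k K : ℕ} (hk : 1 ≤ k) (hK : 8 * k ≤ K) : 1 ≤ (4 * (k : ℝ) + 1) * (piQ k * sl (2 * k) K) := by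
  have hs := tri_sum (4 * k)
  have h1 : ∑ b ∈ range (4 * k + 1), Pr (tri (4 * k))
      (fun ω => (gr ω).Reachable (0, 0) (((4 * k : ℕ) : ℤ) - b, (b : ℤ))) ≤
      ∑ _b ∈ range (4 * k + 1), piQ k * sl (2 * k) K := by
    refine Finset.sum_le_sum fun b hb => ?_
    rw [Finset.mem_range] at hb
    have h3 := up_pt hk hK (a := 4 * (k : ℤ) - b) (by omega) (by omega)
    have e1 : 4 * (k : ℤ) - (4 * k - b) = b := by ring
    have e2 : ((4 * k : ℕ) : ℤ) = 4 * (k : ℤ) := by push_cast; ring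
    rw [e1] at h3
    rw [e2]
    exact h3
  rw [hs, Finset.sum_const, nsmul_eq_mul, Finset.card_range] at h1
  push_cast at h1
  exact h1

theorem evenLaw_of_stripLaw (hs : StripLaw) : EvenLaw := by
  obtain ⟨c, C, hc, hC, h1, h2⟩ := hs
  have h3 : ∀ n : ℕ, 1 ≤ n → (((2 * n : ℕ) : ℝ)) ^ (-(1 / 3) : ℝ) =
      (2 : ℝ) ^ (-(1 / 3) : ℝ) * (n : ℝ) ^ (-(1 / 3) : ℝ) := by
    intro n _
    push_cast
    rw [Real.mul_rpow (by norm_num) (Nat.cast_nonneg n)]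
  have h4 : (2 : ℝ) ^ (-(1 / 3) : ℝ) ≤ 1 :=
    Real.rpow_le_one_of_one_le_of_nonpos (by norm_num) (by norm_num)
  have h5 : (1 / 2 : ℝ) ≤ (2 : ℝ) ^ (-(1 / 3) : ℝ) := by
    have h6 : (2 : ℝ) ^ (-1 : ℝ) ≤ (2 : ℝ) ^ (-(1 / 3) : ℝ) :=
      Real.rpow_le_rpow_of_exponent_le (by norm_num) (by norm_num)
    rw [Real.rpow_neg_one] at h6
    linarith
  refine ⟨c * (1 / 2), C, by positivity, hC, fun n K hn => ?_, fun n hn => ?_⟩
  · refine (h1 (2 * n) K (by omega)).trans ?_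
    rw [h3 n hn]
    have h6 : (0 : ℝ) ≤ (n : ℝ) ^ (-(1 / 3) : ℝ) := by positivity
    have h7 := mul_le_mul_of_nonneg_right h4 h6
    rw [one_mul] at h7
    exact mul_le_mul_of_nonneg_left h7 hC.le
  · obtain ⟨K, hK⟩ := h2 (2 * n) (by omega)
    refine ⟨K, le_trans ?_ hK⟩
    rw [h3 n hn]
    have h6 : (0 : ℝ) ≤ (n : ℝ) ^ (-(1 / 3) : ℝ) := by positivity
    have h7 := mul_le_mul_of_nonneg_right h5 h6
    have h8 := mul_le_mul_of_nonneg_left h7 hc.le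
    calc c * (1 / 2) * (n : ℝ) ^ (-(1 / 3) : ℝ) = c * (1 / 2 * (n : ℝ) ^ (-(1 / 3) : ℝ)) := by ring
      _ ≤ _ := h8

theorem exponents (hs : EvenLaw) : ∃ c C : ℝ, 0 < c ∧ 0 < C ∧ ∀ n : ℕ, 1 ≤ n →
    c * (n : ℝ) ^ (-(1 / 3) : ℝ) ≤ piH n ∧ piH n ≤ C * (n : ℝ) ^ (-(1 / 3) : ℝ) ∧
    c * (n : ℝ) ^ (-(2 / 3) : ℝ) ≤ piQ n ∧ piQ n ≤ C * (n : ℝ) ^ (-(2 / 3) : ℝ) := by
  obtain ⟨c0, C0, hc0, hC0, hu, hl⟩ := hs
  obtain ⟨C1, hC1, hlow⟩ := low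
  obtain ⟨C2, hC2, harm⟩ := arm_product
  have hA : ∀ n : ℕ, 1 ≤ n → (1 / (5 * C0)) * (n : ℝ) ^ (-(2 / 3) : ℝ) ≤ piQ n ∧
      piQ n ≤ (C1 / c0) * (n : ℝ) ^ (-(2 / 3) : ℝ) := by
    intro n hn
    have hn1 : (1 : ℝ) ≤ n := by exact_mod_cast hn
    have hn0 : (0 : ℝ) < n := by linarith
    have hQ0 : 0 ≤ piQ n := Pr_nonneg _ _
    have hx : (0 : ℝ) < (n : ℝ) ^ (-(1 / 3) : ℝ) := Real.rpow_pos_of_pos hn0 _
    have hy : (0 : ℝ) < (n : ℝ) ^ (-(2 / 3) : ℝ) := Real.rpow_pos_of_pos hn0 _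
    have e1 : (n : ℝ) * (n : ℝ) ^ (-(1 / 3) : ℝ) * (n : ℝ) ^ (-(2 / 3) : ℝ) = 1 := by
      rw [mul_assoc, ← Real.rpow_add hn0, show (-(1 / 3) + -(2 / 3) : ℝ) = -1 by norm_num,
        Real.rpow_neg_one]
      exact mul_inv_cancel₀ hn0.ne'
    constructor
    · have h1 := up (K := 8 * n) hn le_rfl
      have h2 := hu n (8 * n) hn
      have h3 : (4 * (n : ℝ) + 1) * (piQ n * sl (2 * n) (8 * n)) ≤
          (5 * n) * (piQ n * (C0 * (n : ℝ) ^ (-(1 / 3) : ℝ))) := by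
        apply mul_le_mul (by linarith) (mul_le_mul_of_nonneg_left h2 hQ0)
          (mul_nonneg hQ0 (Pr_nonneg _ _)) (by linarith)
      have h4 : 1 ≤ (5 * C0) * piQ n * ((n : ℝ) * (n : ℝ) ^ (-(1 / 3) : ℝ)) := by
        calc (1 : ℝ) ≤ _ := h1
          _ ≤ _ := h3
          _ = _ := by ring
      have h5 := mul_le_mul_of_nonneg_right h4 hy.le
      have h6 : (5 * C0) * piQ n * ((n : ℝ) * (n : ℝ) ^ (-(1 / 3) : ℝ)) *
          (n : ℝ) ^ (-(2 / 3) : ℝ) = (5 * C0) * piQ n := by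
        rw [mul_assoc, e1, mul_one]
      rw [h6, one_mul] at h5
      rw [one_div, inv_mul_le_iff₀ (by positivity)]
      exact h5
    · obtain ⟨K, hK⟩ := hl n hn
      have h1 := hlow n hn K
      have h2 : (n : ℝ) * (piQ n * (c0 * (n : ℝ) ^ (-(1 / 3) : ℝ))) ≤ C1 := by
        refine le_trans ?_ h1
        exact mul_le_mul_of_nonneg_left (mul_le_mul_of_nonneg_left hK hQ0) hn0.le
      have h3 := mul_le_mul_of_nonneg_right h2 hy.le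
      have h4 : (n : ℝ) * (piQ n * (c0 * (n : ℝ) ^ (-(1 / 3) : ℝ))) * (n : ℝ) ^ (-(2 / 3) : ℝ) =
          c0 * piQ n := by
        calc _ = c0 * piQ n * ((n : ℝ) * (n : ℝ) ^ (-(1 / 3) : ℝ) * (n : ℝ) ^ (-(2 / 3) : ℝ)) := by
              ring
          _ = _ := by rw [e1, mul_one]
      rw [h4] at h3
      rw [div_mul_eq_mul_div, le_div_iff₀ hc0]
      linarith
  have hB : ∀ n : ℕ, 1 ≤ n → (1 / (4 * (C1 / c0))) * (n : ℝ) ^ (-(1 / 3) : ℝ) ≤ piH n ∧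
      piH n ≤ (5 * C0 * C2) * (n : ℝ) ^ (-(1 / 3) : ℝ) := by
    intro n hn
    obtain ⟨a1, a2⟩ := hA n hn
    obtain ⟨b1, b2⟩ := harm n hn
    have hn1 : (1 : ℝ) ≤ n := by exact_mod_cast hn
    have hn0 : (0 : ℝ) < n := by linarith
    have hH0 : 0 ≤ piH n := Pr_nonneg _ _
    have hx : (0 : ℝ) < (n : ℝ) ^ (-(1 / 3) : ℝ) := Real.rpow_pos_of_pos hn0 _
    have hy : (0 : ℝ) < (n : ℝ) ^ (-(2 / 3) : ℝ) := Real.rpow_pos_of_pos hn0 _
    have e1 : (n : ℝ) * (n : ℝ) ^ (-(1 / 3) : ℝ) * (n : ℝ) ^ (-(2 / 3) : ℝ) = 1 := by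
      rw [mul_assoc, ← Real.rpow_add hn0, show (-(1 / 3) + -(2 / 3) : ℝ) = -1 by norm_num,
        Real.rpow_neg_one]
      exact mul_inv_cancel₀ hn0.ne'
    constructor
    · have h1 : 1 / (4 * (n : ℝ)) ≤ piQ n * piH n := by
        refine le_trans ?_ b1
        apply one_div_le_one_div_of_le (by linarith)
        linarith
      rw [div_le_iff₀ (by linarith)] at h1
      have h2 : piQ n * piH n * (4 * n) ≤ (C1 / c0) * (n : ℝ) ^ (-(2 / 3) : ℝ) * piH n * (4 * n) :=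
        mul_le_mul_of_nonneg_right (mul_le_mul_of_nonneg_right a2 hH0) (by linarith)
      have h3 := mul_le_mul_of_nonneg_right (h1.trans h2) hx.le
      have h4 : (C1 / c0) * (n : ℝ) ^ (-(2 / 3) : ℝ) * piH n * (4 * n) * (n : ℝ) ^ (-(1 / 3) : ℝ) =
          4 * (C1 / c0) * piH n := by
        calc _ = 4 * (C1 / c0) * piH n *
              ((n : ℝ) * (n : ℝ) ^ (-(1 / 3) : ℝ) * (n : ℝ) ^ (-(2 / 3) : ℝ)) := by ring
          _ = _ := by rw [e1, mul_one]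
      rw [h4, one_mul] at h3
      rw [one_div, inv_mul_le_iff₀ (by positivity)]
      exact h3
    · rw [le_div_iff₀ hn0] at b2
      have h2 : (1 / (5 * C0)) * (n : ℝ) ^ (-(2 / 3) : ℝ) * piH n * n ≤ C2 :=
        (mul_le_mul_of_nonneg_right (mul_le_mul_of_nonneg_right a1 hH0) hn0.le).trans b2
      have h3 := mul_le_mul_of_nonneg_right h2 hx.le
      have h4 : (1 / (5 * C0)) * (n : ℝ) ^ (-(2 / 3) : ℝ) * piH n * n * (n : ℝ) ^ (-(1 / 3) : ℝ) =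
          (1 / (5 * C0)) * piH n := by
        calc _ = (1 / (5 * C0)) * piH n *
              ((n : ℝ) * (n : ℝ) ^ (-(1 / 3) : ℝ) * (n : ℝ) ^ (-(2 / 3) : ℝ)) := by ring
          _ = _ := by rw [e1, mul_one]
      rw [h4, one_div, inv_mul_le_iff₀ (by positivity)] at h3
      calc piH n ≤ _ := h3
        _ = _ := by ring
  have hpC : 0 < C1 / c0 := div_pos hC1 hc0
  refine ⟨min (1 / (5 * C0)) (1 / (4 * (C1 / c0))), max (C1 / c0) (5 * C0 * C2),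
    lt_min (by positivity) (by positivity), lt_max_of_lt_left hpC, fun n hn => ?_⟩
  obtain ⟨a1, a2⟩ := hA n hn
  obtain ⟨b1, b2⟩ := hB n hn
  have hn0 : (0 : ℝ) < n := by exact_mod_cast hn
  have hx : (0 : ℝ) < (n : ℝ) ^ (-(1 / 3) : ℝ) := Real.rpow_pos_of_pos hn0 _
  have hy : (0 : ℝ) < (n : ℝ) ^ (-(2 / 3) : ℝ) := Real.rpow_pos_of_pos hn0 _
  exact ⟨(mul_le_mul_of_nonneg_right (min_le_right _ _) hx.le).trans b1,
    b2.trans (mul_le_mul_of_nonneg_right (le_max_right _ _) hx.le),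
    (mul_le_mul_of_nonneg_right (min_le_left _ _) hy.le).trans a1,
    a2.trans (mul_le_mul_of_nonneg_right (le_max_left _ _) hy.le)⟩

end FKG
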