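import Pool.Agent.Lib.MP_216314_pr.G.GCross
import Pool.Agent.Lib.MP_216314_pr.P.PGeo

/-!
# Gluing in the triangle `x, y ≥ 0`, `x + y ≤ 4 n`

`geoT`. Let `hω' : ∀ e ∈ ω, (eb e).1 + (eb e).2 ≤ 4n` (`tri_sum_le`, cast). Unpack `hG1`: `y, y'` with `Conn (box 0 (2n) k n) ω (0,y) (2n,y')`; `hV`: `xv, r`; `hH`: `yu, p`.
1. `geo1` (file PGeo): `(0,0) ~ (0,y)` (`~`: reachable in `gr ω`).
2. `crossT` (N = 4n) with wide = G1 (`x1 = 0, x2 = 2n, y1 = k, y2 = n`, `p := (2n,y')`, `p.1 = x2`), tall = RV (`x3 = a-n, x4 = a-s, y3 = 0, y4 = 5n-a`, `r` on the line; `r.2 = 4n - r.1 ≤ 5n-a`): `(0,y) ~ (xv,0)`.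
3. `crossT` with wide = RH (`x1 = 0, x2 = a+n, y1 = 3n-a, y2 = 4n-a-s`, `p` on the line, `p.1 = 4n - p.2 ≤ a+n`), tall = RV; `r.1 ≤ a-s < a+s ≤ p.1`: `(0,yu) ~ (xv,0)`.
4. `TA`, first case, `(a,4n-a)` connected to `(a-n,y0)`: `pgeo_left` with `t = a-s` gives `y1` with `Conn (box (a-n) (a+n) (3n-a) (5n-a)) ω (a,4n-a) (a-s,y1)` and `Conn (box (a-n) (a-s) (3n-a) (5n-a)) ω (a-n,y0) (a-s,y1)`;
   the sums of these points are `≤ 4n` by `reach_sum`; `crossT` with wide = this path (`p := (a-s,y1)`, `p.1 = x2`), tall = RV: `(a-n,y0) ~ (xv,0)`, and `(a,4n-a) ~ (a-n,y0)`.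
   Second case, `(a,4n-a)` connected to `(x0,3n-a)`: `pgeo_down` with `t = 4n-a-s` gives `x1'` with `Conn (box (a-n) (a+n) (3n-a) (4n-a-s)) ω (x0,3n-a) (x1',4n-a-s)`; `crossT` with wide = RH (`p` on the line), tall = this path
   (`x3 = a-n, x4 = a+n, y3 = 3n-a, y4 = 4n-a-s`, `r := (x1',4n-a-s)`, `r.2 = y4`): `(0,yu) ~ (x0,3n-a)`.
5. Chain.
-/

set_option autoImplicit false

noncomputable section

namespace FKG

open Finset FKI FKP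

/-- a path from the line `y = 0` to the hypotenuse in `[a-n, a-s] × [0, 5n-a]` -/
def RV (n s : ℕ) (a : ℤ) (ω : Finset Edge) : Prop :=
  ∃ (xv : ℤ) (p : V), a - n ≤ xv ∧ xv ≤ a - s ∧ a - n ≤ p.1 ∧ p.1 ≤ a - s ∧ p.1 + p.2 = 4 * n ∧
    Conn (box (a - n) (a - s) 0 (5 * n - a)) ω (xv, 0) p

/-- a path from the line `x = 0` to the hypotenuse in `[0, a+n] × [3n-a, 4n-a-s]` -/
def RH (n s : ℕ) (a : ℤ) (ω : Finset Edge) : Prop :=
  ∃ (yu : ℤ) (p : V), 3 * n - a ≤ yu ∧ yu ≤ 4 * n - a - s ∧ 3 * n - a ≤ p.2 ∧ p.2 ≤ 4 * n - a - s ∧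
    p.1 + p.2 = 4 * n ∧ Conn (box 0 (a + n) (3 * n - a) (4 * n - a - s)) ω (0, yu) p

/-- the arm of the point `(a, 4n-a)` of the hypotenuse: it is connected to the line `x = a - n` or to the line
`y = 3n - a` inside `[a-n, a+n] × [3n-a, 5n-a]` -/
def TA (n : ℕ) (a : ℤ) (ω : Finset Edge) : Prop :=
  (∃ y : ℤ, 3 * n - a ≤ y ∧ y ≤ 5 * n - a ∧
    Conn (box (a - n) (a + n) (3 * n - a) (5 * n - a)) ω (a, 4 * (n : ℤ) - a) (a - n, y)) ∨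
  (∃ x : ℤ, a - n ≤ x ∧ x ≤ a + n ∧
    Conn (box (a - n) (a + n) (3 * n - a) (5 * n - a)) ω (a, 4 * (n : ℤ) - a) (x, 3 * (n : ℤ) - a))

theorem inc_RV (n s : ℕ) (a : ℤ) : Inc (RV n s a) := by
  rintro ω ω' hs ⟨x, p, h1, h2, h3, h4, h5, hc⟩
  exact ⟨x, p, h1, h2, h3, h4, h5, hc.mono (Finset.Subset.refl _) hs⟩

theorem inc_RH (n s : ℕ) (a : ℤ) : Inc (RH n s a) := by
  rintro ω ω' hs ⟨x, p, h1, h2, h3, h4, h5, hc⟩
  exact ⟨x, p, h1, h2, h3, h4, h5, hc.mono (Finset.Subset.refl _) hs⟩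

theorem inc_TA (n : ℕ) (a : ℤ) : Inc (TA n a) := by
  rintro ω ω' hs (⟨y, h1, h2, hc⟩ | ⟨y, h1, h2, hc⟩)
  · exact Or.inl ⟨y, h1, h2, hc.mono (Finset.Subset.refl _) hs⟩
  · exact Or.inr ⟨y, h1, h2, hc.mono (Finset.Subset.refl _) hs⟩

theorem geoT {n k s : ℕ} (hk : k < n) (hs0 : 1 ≤ s) (hs : s < n) {a : ℤ} (ha : (n : ℤ) ≤ a) (ha' : a ≤ 2 * n)
    {ω : Finset Edge} (hω : ω ⊆ tri (4 * n)) (hQ : QA n ω) (hG1 : HC 0 (2 * n) k n ω)
    (hG2 : VC k n 0 (2 * n) ω) (hV : RV n s a ω) (hH : RH n s a ω) (hT : TA n a ω) :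
    (gr ω).Reachable (0, 0) (a, 4 * (n : ℤ) - a) := by
  have hω' : ∀ e ∈ ω, (eb e).1 + (eb e).2 ≤ 4 * (n : ℤ) := by
    intro e he
    have := tri_sum_le hω e he
    push_cast at this
    exact this
  obtain ⟨y, y', a1, a2, a3, a4, hG⟩ := hG1
  obtain ⟨xv, r, b1, b2, b3, b4, b5, hRV⟩ := hV
  obtain ⟨yu, p, c1, c2, c3, c4, c5, hRH⟩ := hH
  have hk' : (k : ℤ) < n := by exact_mod_cast hk
  have hs' : (s : ℤ) < n := by exact_mod_cast hs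
  have hs1 : (1 : ℤ) ≤ s := by exact_mod_cast hs0
  have hk0 : (0 : ℤ) ≤ k := by omega
  have r1 := geo1 hk hQ hG2 ⟨a1, a2⟩ ⟨a3, a4⟩ hG
  have r2 : (gr ω).Reachable (0, y) (xv, 0) := by
    refine crossT (N := 4 * n) hω' (x1 := 0) (x2 := 2 * n) (y1 := k) (y2 := n) (x3 := a - n) (x4 := a - s)
      (y3 := 0) (y4 := 5 * n - a) (p := (2 * (n : ℤ), y')) (r := r) (by omega) (by omega) (by omega)
      (by omega) ⟨a1, a2⟩ (by omega) ⟨le_rfl, a3, a4⟩ ?_ (Or.inl rfl) ⟨b1, b2⟩ (by omega)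
      ⟨b3, b4, by omega⟩ (by omega) (Or.inr b5) (Or.inr (Or.inl rfl)) hG hRV
    show 2 * (n : ℤ) + y' ≤ 4 * n
    omega
  have r3 : (gr ω).Reachable (0, yu) (xv, 0) := by
    exact crossT (N := 4 * n) hω' (x1 := 0) (x2 := a + n) (y1 := 3 * n - a) (y2 := 4 * n - a - s)
      (x3 := a - n) (x4 := a - s) (y3 := 0) (y4 := 5 * n - a) (p := p) (r := r) (by omega) (by omega)
      (by omega) (by omega) ⟨c1, c2⟩ (by omega) ⟨by omega, c3, c4⟩ (by omega) (Or.inr c5) ⟨b1, b2⟩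
      (by omega) ⟨b3, b4, by omega⟩ (by omega) (Or.inr b5) (Or.inl (by omega)) hRH hRV
  have hv : a + (4 * (n : ℤ) - a) ≤ 4 * n := by omega
  have r4 : (gr ω).Reachable (a, 4 * (n : ℤ) - a) (xv, 0) := by
    rcases hT with ⟨y0, d1, d2, hc⟩ | ⟨x0, d1, d2, hc⟩
    · obtain ⟨y1, e1, e2, e3, e4⟩ := pgeo_left (t := a - s) hc (by omega)
        ⟨by simp only; omega, by simp only; omega, by simp only; omega, by simp only; omega⟩
      have s1 := reach_sum hω' (u := (a, 4 * (n : ℤ) - a)) hv e3.reach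
      have s2 := reach_sum hω' (u := (a, 4 * (n : ℤ) - a)) hv hc.reach
      simp only at s1 s2
      refine hc.reach.trans ?_
      exact crossT (N := 4 * n) hω' (x1 := a - n) (x2 := a - s) (y1 := 3 * n - a) (y2 := 5 * n - a)
        (x3 := a - n) (x4 := a - s) (y3 := 0) (y4 := 5 * n - a) (p := (a - s, y1)) (r := r) le_rfl le_rfl
        (by omega) le_rfl ⟨d1, d2⟩ (by omega) ⟨le_rfl, e1, e2⟩ s1 (Or.inl rfl) ⟨b1, b2⟩
        (by omega) ⟨b3, b4, by omega⟩ (by omega) (Or.inr b5) (Or.inr (Or.inl rfl)) e4 hRV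
    · obtain ⟨x1, e1, e2, e3, e4⟩ := pgeo_down (t := 4 * n - a - s) hc (by omega)
        ⟨by simp only; omega, by simp only; omega, by simp only; omega, by simp only; omega⟩
      have s1 := reach_sum hω' (u := (a, 4 * (n : ℤ) - a)) hv e3.reach
      simp only at s1
      refine (hc.reach.trans ?_).trans r3
      refine SimpleGraph.Reachable.symm ?_
      exact crossT (N := 4 * n) hω' (x1 := 0) (x2 := a + n) (y1 := 3 * n - a) (y2 := 4 * n - a - s)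
        (x3 := a - n) (x4 := a + n) (y3 := 3 * n - a) (y4 := 4 * n - a - s) (p := p)
        (r := (x1, 4 * (n : ℤ) - a - s)) (by omega) le_rfl le_rfl le_rfl ⟨c1, c2⟩ (by omega)
        ⟨by omega, c3, c4⟩ (by omega) (Or.inr c5) ⟨d1, d2⟩ (by omega) ⟨e1, e2, le_rfl⟩ s1
        (Or.inl rfl) (Or.inr (Or.inr rfl)) hRH e4
  exact r1.trans (r2.trans r4.symm)

end FKG
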