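import Pool.Agent.Lib.MP_216314_pr.G.GDef
import Pool.Agent.Lib.MP_216314_pr.P.PProbA
import Pool.Agent.Lib.MP_216314_pr.W.Beraha

/-!
# The sum rule of the triangle: the expected number of points of the hypotenuse connected to the right-angled corner is 1

`FKW.rule` with `t = true`, `J = 0`, `q = 1`, `m = fun _ => N`, `a = N` (the marked point is the right-angled corner `(N,0)` of the wedge
`{(0,a,b) : b ≤ a ≤ N}`) and `g` with `g (w+1) + g (w-1) = g w`, `g 0 = 0`, `g 1 = 1`, `g 2 = 1`, `g 3 = 0` (for example `g w = ![0, 1, 1, 0, -1, -1] (w mod 6)`, or `g w = 2 / √3 * sin (w π / 3)`).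

* `prob_tri`: `S = FKW.wedge true 0 (fun _ => N)` is the set of the `(0,a,b)` with `a ≤ N`, `b ≤ a`; `FKW.edges S` is formed by the `((0,a,b),0)` with `a + 1 ≤ N`, `b ≤ a` and the `((0,a,b),1)` with `a ≤ N`,
  `b + 1 ≤ a` (`k = 2` leads to `(1,b,0)`, not in `S`). The map `((i,a,b),k) ↦ if k = 0 then (N-a-1, b, false) else (N-a, b, true)` (values in `ℤ`) is a bijection from `FKW.edges S` to `tri N` (`mem_tri`), and
  `φ (i,a,b) = (N-a, b)` maps the end points of an edge to the end points of its image (in the reversed order for `k = 0`); hence reachability is preserved for subsets of `FKW.edges S` between vertices of `S`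
  (both directions by induction on the walk; or: `SimpleGraph.Reachable.map` with a homomorphism in both directions, the inverse vertex map being `(x,y) ↦ (0, (N-x).toNat, y.toNat)`).
  `FKW.wt 1 S ω = √1 ^ _ * 1 ^ _ = 1`, so both sides are (number of configurations with the connection) / 2 ^ (number of edges): `Finset.card_nbij` or `Finset.card_image_of_injOn`, `Finset.sum_nbij'`.
* `tri_sum`: in `FKW.rule` the first sum is over `range (N - N)`, empty; the second has the factor `g 3 = 0`; `k = 0` has the factor `g 0 = 0`; for `k = 1` the set `FKW.far true 0 m 1` is empty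
  (`v.1 = 1` is not in the wedge; `v.1 = 0`, `v.2.2 = N`, `v.2.2 < v.2.1 ≤ N` is impossible); the last one is `(g 1 + g 2) * ∑ b ∈ range (min N N + 1), prob 1 S (0,N,0) (FKW.side true 0 b)`, `FKW.side true 0 b = (0,b,b)`.
  So `2 * ∑ = g 0 + g 1 + g 2 = 2`. Then `prob_tri`.
-/

set_option autoImplicit false

noncomputable section

namespace FKG

open Finset FKI FKP

private theorem GSum_reach_of {A B : Type*} (G : SimpleGraph A) (H : SimpleGraph B) (f : A → B)
    (h : ∀ u v, G.Adj u v → H.Reachable (f u) (f v)) {u v : A} (r : G.Reachable u v) :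
    H.Reachable (f u) (f v) := by
  obtain ⟨p⟩ := r
  induction p with
  | nil => exact SimpleGraph.Reachable.refl _
  | cons hadj p ih => exact (h _ _ hadj).trans ih

private def GSum_F (N : ℕ) (e : FKW.V × Fin 3) : Edge :=
  if e.2 = 0 then ((N : ℤ) - e.1.2.1 - 1, (e.1.2.2 : ℤ), false) else ((N : ℤ) - e.1.2.1, (e.1.2.2 : ℤ), true)

private def GSum_G (N : ℕ) (e : Edge) : FKW.V × Fin 3 :=
  if e.2.2 = false then ((0, ((N : ℤ) - e.1 - 1).toNat, e.2.1.toNat), 0)
  else ((0, ((N : ℤ) - e.1).toNat, e.2.1.toNat), 1)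

private def GSum_f (N : ℕ) (v : FKW.V) : V := ((N : ℤ) - v.2.1, (v.2.2 : ℤ))

private def GSum_g (N : ℕ) (v : V) : FKW.V := (0, ((N : ℤ) - v.1).toNat, v.2.toNat)

private theorem GSum_memS {N i a b : ℕ} : (i, a, b) ∈ FKW.wedge true 0 (fun _ => N) ↔
    i = 0 ∧ a ≤ N ∧ b ≤ a := by
  unfold FKW.wedge
  simp only [zero_add, range_one, mem_biUnion, mem_singleton, mem_filter, mem_product, mem_range]
  constructor
  · rintro ⟨j, hj, ⟨h1, h2, h3⟩, h4⟩
    have h5 : i = 0 := by omega
    exact ⟨h5, by omega, h4 trivial h5⟩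
  · rintro ⟨h1, h2, h3⟩
    exact ⟨0, rfl, ⟨h1, by omega, by omega⟩, fun _ _ => h3⟩

private theorem GSum_memE {N i a b : ℕ} {k : Fin 3} :
    ((i, a, b), k) ∈ FKW.edges (FKW.wedge true 0 (fun _ => N)) ↔
    i = 0 ∧ ((k = 0 ∧ a + 1 ≤ N ∧ b ≤ a) ∨ (k = 1 ∧ a ≤ N ∧ b + 1 ≤ a)) := by
  unfold FKW.edges
  rw [mem_filter, mem_product]
  fin_cases k
  · have e1 : FKW.nb ((i, a, b), (0 : Fin 3)) = (i, a + 1, b) := by simp [FKW.nb]
    simp only [Fin.zero_eta, mem_univ, and_true, e1, GSum_memS]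
    constructor
    · rintro ⟨⟨h1, h2, h3⟩, ⟨h4, h5, h6⟩, h7⟩
      exact ⟨h1, Or.inl ⟨trivial, h5, h3⟩⟩
    · rintro ⟨h1, h2 | h2⟩
      · exact ⟨⟨h1, by omega, h2.2.2⟩, ⟨h1, h2.2.1, by omega⟩, fun h => absurd h (by decide)⟩
      · exact absurd h2.1 (by decide)
  · have e1 : FKW.nb ((i, a, b), (1 : Fin 3)) = (i, a, b + 1) := by simp [FKW.nb]
    simp only [Fin.mk_one, mem_univ, and_true, e1, GSum_memS]
    constructor
    · rintro ⟨⟨h1, h2, h3⟩, ⟨h4, h5, h6⟩, h7⟩
      exact ⟨h1, Or.inr ⟨trivial, h5, h6⟩⟩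
    · rintro ⟨h1, h2 | h2⟩
      · exact absurd h2.1 (by decide)
      · exact ⟨⟨h1, h2.2.1, by omega⟩, ⟨h1, h2.2.1, h2.2.2⟩, fun h => absurd h (by decide)⟩
  · have e1 : FKW.nb ((i, a, b), (2 : Fin 3)) = (i + 1, b, 0) := by simp [FKW.nb]
    constructor
    · rintro ⟨-, h2, -⟩
      have h3 : (i + 1, b, 0) ∈ FKW.wedge true 0 (fun _ => N) := by
        rw [← e1]
        exact h2
      rw [GSum_memS] at h3
      omega
    · rintro ⟨h1, h2 | h2⟩
      · exact absurd h2.1 (by decide)
      · exact absurd h2.1 (by decide)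

private theorem GSum_F_mem {N : ℕ} {e : FKW.V × Fin 3}
    (he : e ∈ FKW.edges (FKW.wedge true 0 (fun _ => N))) : GSum_F N e ∈ tri N := by
  obtain ⟨⟨i, a, b⟩, k⟩ := e
  rw [GSum_memE] at he
  obtain ⟨rfl, ⟨rfl, h1, h2⟩ | ⟨rfl, h1, h2⟩⟩ := he
  · rw [mem_tri]
    simp only [GSum_F, ea, eb, if_true, Bool.false_eq_true, if_false]
    omega
  · rw [mem_tri]
    simp only [GSum_F, ea, eb, if_true, show (1 : Fin 3) ≠ 0 by decide, if_false]
    omega

private theorem GSum_G_mem {N : ℕ} {e : Edge} (he : e ∈ tri N) :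
    GSum_G N e ∈ FKW.edges (FKW.wedge true 0 (fun _ => N)) := by
  obtain ⟨x, y, t⟩ := e
  rw [mem_tri] at he
  cases t
  · simp only [ea, eb, Bool.false_eq_true, if_false] at he
    simp only [GSum_G, if_true]
    rw [GSum_memE]
    exact ⟨rfl, Or.inl ⟨rfl, by omega, by omega⟩⟩
  · simp only [ea, eb, if_true] at he
    simp only [GSum_G, Bool.true_eq_false, if_false]
    rw [GSum_memE]
    exact ⟨rfl, Or.inr ⟨rfl, by omega, by omega⟩⟩

private theorem GSum_GF {N : ℕ} {e : FKW.V × Fin 3}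
    (he : e ∈ FKW.edges (FKW.wedge true 0 (fun _ => N))) : GSum_G N (GSum_F N e) = e := by
  obtain ⟨⟨i, a, b⟩, k⟩ := e
  rw [GSum_memE] at he
  obtain ⟨rfl, ⟨rfl, h1, h2⟩ | ⟨rfl, h1, h2⟩⟩ := he
  · simp only [GSum_F, GSum_G, if_true, Prod.mk.injEq, and_true, true_and]
    omega
  · simp only [GSum_F, GSum_G, show (1 : Fin 3) ≠ 0 by decide, if_false, Bool.true_eq_false, Prod.mk.injEq,
      and_true, true_and]
    omega

private theorem GSum_FG {N : ℕ} {e : Edge} (he : e ∈ tri N) : GSum_F N (GSum_G N e) = e := by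
  obtain ⟨x, y, t⟩ := e
  rw [mem_tri] at he
  cases t
  · simp only [ea, eb, Bool.false_eq_true, if_false] at he
    simp only [GSum_F, GSum_G, if_true, Prod.mk.injEq, and_true]
    omega
  · simp only [ea, eb, if_true] at he
    simp only [GSum_F, GSum_G, show (1 : Fin 3) ≠ 0 by decide, if_false, Bool.true_eq_false, Prod.mk.injEq,
      and_true]
    omega

private theorem GSum_fwd {N : ℕ} {ω : Finset (FKW.V × Fin 3)}
    (hω : ω ⊆ FKW.edges (FKW.wedge true 0 (fun _ => N))) (u v : FKW.V)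
    (h : (FKW.gr ω).Adj u v) : (gr (ω.image (GSum_F N))).Reachable (GSum_f N u) (GSum_f N v) := by
  have key : ∀ e ∈ ω, (gr (ω.image (GSum_F N))).Reachable (GSum_f N e.1) (GSum_f N (FKW.nb e)) := by
    intro e he
    have h1 := hω he
    obtain ⟨⟨i, a, b⟩, k⟩ := e
    rw [GSum_memE] at h1
    obtain ⟨rfl, ⟨rfl, h1, h2⟩ | ⟨rfl, h1, h2⟩⟩ := h1
    · have e1 : FKW.nb ((0, a, b), (0 : Fin 3)) = (0, a + 1, b) := by simp [FKW.nb]
      apply SimpleGraph.Adj.reachable
      unfold gr
      rw [SimpleGraph.fromRel_adj, e1]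
      refine ⟨?_, Or.inr ⟨GSum_F N ((0, a, b), 0), mem_image_of_mem _ he, ?_, ?_⟩⟩
      · simp only [GSum_f, ne_eq, Prod.mk.injEq, not_and]
        intro h3
        push_cast at h3
        omega
      · simp only [GSum_F, GSum_f, ea, if_true, Prod.mk.injEq, and_true]
        push_cast
        ring
      · simp only [GSum_F, GSum_f, eb, if_true, Prod.mk.injEq, and_true, Bool.false_eq_true, if_false]
        ring
    · have e1 : FKW.nb ((0, a, b), (1 : Fin 3)) = (0, a, b + 1) := by simp [FKW.nb]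
      apply SimpleGraph.Adj.reachable
      unfold gr
      rw [SimpleGraph.fromRel_adj, e1]
      refine ⟨?_, Or.inl ⟨GSum_F N ((0, a, b), 1), mem_image_of_mem _ he, ?_, ?_⟩⟩
      · simp only [GSum_f, ne_eq, Prod.mk.injEq, not_and]
        intro h3 h4
        push_cast at h4
        omega
      · simp only [GSum_F, GSum_f, ea, show (1 : Fin 3) ≠ 0 by decide, if_false]
      · simp only [GSum_F, GSum_f, eb, show (1 : Fin 3) ≠ 0 by decide, if_false, if_true]
        push_cast
        rfl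
  unfold FKW.gr at h
  rw [SimpleGraph.fromRel_adj] at h
  rcases h.2 with ⟨e, he, h1, h2⟩ | ⟨e, he, h1, h2⟩
  · rw [← h1, ← h2]
    exact key e he
  · rw [← h1, ← h2]
    exact (key e he).symm

private theorem GSum_bwd {N : ℕ} {ω : Finset Edge} (hω : ω ⊆ tri N) (u v : V)
    (h : (gr ω).Adj u v) : (FKW.gr (ω.image (GSum_G N))).Reachable (GSum_g N u) (GSum_g N v) := by
  have key : ∀ e ∈ ω, (FKW.gr (ω.image (GSum_G N))).Reachable (GSum_g N (ea e)) (GSum_g N (eb e)) := by
    intro e he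
    have h1 := hω he
    obtain ⟨x, y, t⟩ := e
    rw [mem_tri] at h1
    cases t
    · simp only [ea, eb, Bool.false_eq_true, if_false] at h1
      apply SimpleGraph.Adj.reachable
      unfold FKW.gr
      rw [SimpleGraph.fromRel_adj]
      refine ⟨?_, Or.inr ⟨GSum_G N (x, y, false), mem_image_of_mem _ he, ?_, ?_⟩⟩
      · simp only [GSum_g, ea, eb, Bool.false_eq_true, if_false, ne_eq, Prod.mk.injEq, not_and, true_and]
        intro h3
        omega
      · simp only [GSum_G, GSum_g, eb, Bool.false_eq_true, if_false, if_true, Prod.mk.injEq, and_true, true_and]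
        omega
      · simp only [GSum_G, GSum_g, ea, if_true, FKW.nb, Prod.mk.injEq, and_true, true_and]
        omega
    · simp only [ea, eb, if_true] at h1
      apply SimpleGraph.Adj.reachable
      unfold FKW.gr
      rw [SimpleGraph.fromRel_adj]
      refine ⟨?_, Or.inl ⟨GSum_G N (x, y, true), mem_image_of_mem _ he, ?_, ?_⟩⟩
      · simp only [GSum_g, ea, eb, if_true, ne_eq, Prod.mk.injEq, not_and, true_and]
        intro h3
        omega
      · simp only [GSum_G, GSum_g, ea, Bool.true_eq_false, if_false]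
      · simp only [GSum_G, GSum_g, eb, Bool.true_eq_false, if_false, if_true, FKW.nb,
          show (1 : Fin 3) ≠ 0 by decide, Prod.mk.injEq, true_and]
        omega
  unfold gr at h
  rw [SimpleGraph.fromRel_adj] at h
  rcases h.2 with ⟨e, he, h1, h2⟩ | ⟨e, he, h1, h2⟩
  · rw [← h1, ← h2]
    exact key e he
  · rw [← h1, ← h2]
    exact (key e he).symm

private theorem GSum_imGF {N : ℕ} {ω : Finset (FKW.V × Fin 3)}
    (hω : ω ⊆ FKW.edges (FKW.wedge true 0 (fun _ => N))) : (ω.image (GSum_F N)).image (GSum_G N) = ω := by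
  ext e
  rw [mem_image]
  constructor
  · rintro ⟨e', he', rfl⟩
    rw [mem_image] at he'
    obtain ⟨e1, he1, rfl⟩ := he'
    rw [GSum_GF (hω he1)]
    exact he1
  · intro he
    exact ⟨GSum_F N e, mem_image_of_mem _ he, GSum_GF (hω he)⟩

private theorem GSum_imFG {N : ℕ} {ω : Finset Edge} (hω : ω ⊆ tri N) :
    (ω.image (GSum_G N)).image (GSum_F N) = ω := by
  ext e
  rw [mem_image]
  constructor
  · rintro ⟨e', he', rfl⟩
    rw [mem_image] at he'
    obtain ⟨e1, he1, rfl⟩ := he'
    rw [GSum_FG (hω he1)]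
    exact he1
  · intro he
    exact ⟨GSum_G N e, mem_image_of_mem _ he, GSum_FG (hω he)⟩

private theorem GSum_card (N : ℕ) : (FKW.edges (FKW.wedge true 0 (fun _ => N))).card = (tri N).card :=
  Finset.card_nbij' (GSum_F N) (GSum_G N) (fun _ he => GSum_F_mem he) (fun _ he => GSum_G_mem he)
    (fun _ he => GSum_GF he) (fun _ he => GSum_FG he)

private theorem GSum_iff {N b : ℕ} (hb : b ≤ N) {ω : Finset (FKW.V × Fin 3)}
    (hω : ω ⊆ FKW.edges (FKW.wedge true 0 (fun _ => N))) :
    (FKW.gr ω).Reachable (0, N, 0) (0, b, b) ↔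
      (gr (ω.image (GSum_F N))).Reachable (0, 0) ((N : ℤ) - b, (b : ℤ)) := by
  have e1 : GSum_f N (0, N, 0) = (0, 0) := by
    simp [GSum_f]
  have e2 : GSum_f N (0, b, b) = ((N : ℤ) - b, (b : ℤ)) := rfl
  have e3 : GSum_g N (0, 0) = (0, N, 0) := by
    simp [GSum_g]
  have e4 : GSum_g N ((N : ℤ) - b, (b : ℤ)) = (0, b, b) := by
    simp only [GSum_g, Prod.mk.injEq, true_and]
    omega
  constructor
  · intro h
    have h1 := GSum_reach_of _ _ (GSum_f N) (GSum_fwd hω) h
    rw [e1, e2] at h1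
    exact h1
  · intro h
    have hsub : ω.image (GSum_F N) ⊆ tri N := by
      intro e he
      rw [mem_image] at he
      obtain ⟨e', he', rfl⟩ := he
      exact GSum_F_mem (hω he')
    have h1 := GSum_reach_of _ _ (GSum_g N) (GSum_bwd hsub) h
    rw [e3, e4, GSum_imGF hω] at h1
    exact h1

/-- transfer: the wedge of angle `π/4` is the triangle, `(0,a,b) ↦ (N-a, b)` -/
theorem prob_tri (N : ℕ) {b : ℕ} (hb : b ≤ N) :
    FKW.prob 1 (FKW.wedge true 0 (fun _ => N)) (0, N, 0) (0, b, b) =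
      Pr (tri N) (fun ω => (gr ω).Reachable (0, 0) ((N : ℤ) - b, (b : ℤ))) := by
  classical
  have hw : ∀ ω, FKW.wt 1 (FKW.wedge true 0 (fun _ => N)) ω = 1 := by
    intro ω
    unfold FKW.wt
    rw [Real.sqrt_one, one_pow, one_pow, one_mul]
  unfold FKW.prob
  simp only [hw]
  rw [Finset.sum_boole, Finset.sum_const, Finset.card_powerset, pproba_eq, GSum_card]
  have hc : ((FKW.edges (FKW.wedge true 0 (fun _ => N))).powerset.filter
      (fun ω => (FKW.gr ω).Reachable (0, N, 0) (0, b, b))).card =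
      ((tri N).powerset.filter (fun ω => (gr ω).Reachable (0, 0) ((N : ℤ) - b, (b : ℤ)))).card := by
    refine Finset.card_nbij' (fun ω => ω.image (GSum_F N)) (fun ω => ω.image (GSum_G N)) ?_ ?_ ?_ ?_
    · intro ω hω
      rw [Finset.mem_coe, Finset.mem_filter, Finset.mem_powerset] at hω
      rw [Finset.mem_coe, Finset.mem_filter, Finset.mem_powerset]
      refine ⟨?_, (GSum_iff hb hω.1).1 hω.2⟩
      intro e he
      rw [mem_image] at he
      obtain ⟨e', he', rfl⟩ := he
      exact GSum_F_mem (hω.1 he')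
    · intro ω hω
      rw [Finset.mem_coe, Finset.mem_filter, Finset.mem_powerset] at hω
      rw [Finset.mem_coe, Finset.mem_filter, Finset.mem_powerset]
      have hsub : ω.image (GSum_G N) ⊆ FKW.edges (FKW.wedge true 0 (fun _ => N)) := by
        intro e he
        rw [mem_image] at he
        obtain ⟨e', he', rfl⟩ := he
        exact GSum_G_mem (hω.1 he')
      refine ⟨hsub, (GSum_iff hb hsub).2 ?_⟩
      rw [GSum_imFG hω.1]
      exact hω.2
    · intro ω hω
      rw [Finset.mem_coe, Finset.mem_filter, Finset.mem_powerset] at hω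
      exact GSum_imGF hω.1
    · intro ω hω
      rw [Finset.mem_coe, Finset.mem_filter, Finset.mem_powerset] at hω
      exact GSum_imFG hω.1
  rw [hc]
  simp

theorem tri_sum (N : ℕ) : ∑ b ∈ range (N + 1),
    Pr (tri N) (fun ω => (gr ω).Reachable (0, 0) ((N : ℤ) - b, (b : ℤ))) = 1 := by
  have hpi := Real.pi_pos
  have hs3 : 0 < Real.sin (Real.pi / 3) := Real.sin_pos_of_pos_of_lt_pi (by linarith) (by linarith)
  have h := FKW.rule (t := true) (J := 0) (a := N) (q := 1) (m := fun _ => N) one_pos le_rfl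
    (g := fun w => Real.sin (((w : ℝ) + 0) * (Real.pi / 3)))
    (fun w => by
      rw [FKW.sin_sol, Real.sqrt_one, Real.cos_pi_div_three]
      ring)
  have hfar : FKW.far true 0 (fun _ => N) 1 = ∅ := by
    rw [Finset.eq_empty_iff_forall_notMem]
    rintro ⟨i, a, b⟩ hv
    unfold FKW.far at hv
    rw [mem_filter, GSum_memS] at hv
    obtain ⟨⟨h1, h2, h3⟩, h4 | h4⟩ := hv
    · have h5 : i = 1 := h4.1
      omega
    · have h5 : b = N := h4.2.1
      have h6 : b < a := h4.2.2 rfl h1
      omega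
  have g0 : Real.sin ((((0 : ℤ) : ℝ) + 0) * (Real.pi / 3)) = 0 := by simp
  have g3 : Real.sin ((((3 : ℤ) : ℝ) + 0) * (Real.pi / 3)) = 0 := by
    rw [show (((3 : ℤ) : ℝ) + 0) * (Real.pi / 3) = Real.pi by push_cast; ring, Real.sin_pi]
  have g1 : Real.sin ((((1 : ℤ) : ℝ) + 0) * (Real.pi / 3)) = Real.sin (Real.pi / 3) := by
    push_cast
    ring_nf
  have g2 : Real.sin ((((2 : ℤ) : ℝ) + 0) * (Real.pi / 3)) = Real.sin (Real.pi / 3) := by
    rw [show (((2 : ℤ) : ℝ) + 0) * (Real.pi / 3) = Real.pi - Real.pi / 3 by push_cast; ring, Real.sin_pi_sub]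
  rw [Nat.sub_self, Finset.range_zero, Finset.sum_empty, mul_zero, zero_add, g3, zero_mul, zero_add,
    Finset.sum_range_succ, Finset.sum_range_succ, Finset.range_zero, Finset.sum_empty, hfar, Finset.sum_empty,
    mul_zero, add_zero, zero_add] at h
  simp only [Nat.cast_zero, g0, zero_mul, zero_add, if_true, min_self, g1, g2] at h
  have hk : ∑ b ∈ range (N + 1), Pr (tri N) (fun ω => (gr ω).Reachable (0, 0) ((N : ℤ) - b, (b : ℤ))) =
      ∑ b ∈ range (N + 1), FKW.prob 1 (FKW.wedge true 0 (fun _ => N)) (0, N, 0) (FKW.side true 0 b) := by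
    apply Finset.sum_congr rfl
    intro b hb
    rw [mem_range] at hb
    rw [← prob_tri N (by omega)]
    rfl
  rw [hk]
  have h2 : (Real.sin (Real.pi / 3) + Real.sin (Real.pi / 3)) ≠ 0 := by positivity
  exact mul_left_cancel₀ h2 (by rw [mul_one]; exact h)

end FKG
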