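import Pool.Agent.Lib.MP_216314_pr.G.GEst
import Pool.Agent.Lib.MP_216314_pr.G.GArm
import Pool.Agent.Lib.MP_216314_pr.G.GSum
import Pool.Agent.Lib.MP_216314_pr.P.PUp

/-!
# The lower half: gluing

* `low_pt`: with `k = s = n / 2` (`1 ≤ s < n`, `n ≤ 2 (n-s)`): `Pr_fkg` five times as in `pup_pt` (file PUp) for `QA n` (`Pr_dep`, `box 0 n 0 n ⊆ tri (4n)`), `HC 0 (2n) k n`, `VC k n 0 (2n)` (`Pr_HC`, `Pr_VC`; boxes in the triangle as the sums are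
  `≤ 3n`; lengths `2n ≤ 8 (n-k)`), `RV n s a`, `RH n s a` (`Pr_RV`, `Pr_RH`), `TA n a` (`Pr_TA`), and `geoT`.
* `low`: `rsw 8` gives `c`; `n ≥ 2`: `tri_sum (4n)` (terms `b ∈ [2n,3n]`, that is `a = 4n-b ∈ [n,2n]`; the others are `≥ 0`): `(n+1) * (piQ n * sl (2n) K * c^4) ≤ 1`; `n = 1`: `piQ, sl ≤ 1`.
-/

set_option autoImplicit false

noncomputable section

namespace FKG

open Finset FKI FKP

theorem low_pt {c : ℝ} (hc0 : 0 < c) (hc : ∀ x y : ℕ, 1 ≤ y → x ≤ 8 * y → c ≤ h x y) {n : ℕ}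
    (hn : 2 ≤ n) (K : ℕ) {a : ℤ} (ha : (n : ℤ) ≤ a) (ha' : a ≤ 2 * n) :
    piQ n * sl (2 * n) K * c ^ 4 ≤
      Pr (tri (4 * n)) (fun ω => (gr ω).Reachable (0, 0) (a, 4 * (n : ℤ) - a)) := by
  obtain ⟨k, hk⟩ : ∃ k, k = n / 2 := ⟨_, rfl⟩
  have hbox : ∀ {x1 x2 y1 y2 : ℤ}, 0 ≤ x1 → 0 ≤ y1 → x2 + y2 ≤ 4 * n →
      box x1 x2 y1 y2 ⊆ tri (4 * n) := by
    intro x1 x2 y1 y2 h1 h2 h3 e he
    have hb := pexit_box he
    rw [mem_tri]
    push_cast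
    exact ⟨by omega, by omega, by omega⟩
  set E : Finset Edge := tri (4 * n) with hE
  have hQ : piQ n ≤ Pr E (QA n) := by
    have hsub : box 0 (n : ℤ) 0 n ⊆ E := hbox le_rfl le_rfl (by omega)
    rw [Pr_dep hsub (dep_QA (Finset.Subset.refl _))]
    exact le_rfl
  have hT : sl (2 * n) K ≤ Pr E (TA n a) := Pr_TA (by omega) K ha (by omega)
  have hG1 : c ≤ Pr E (HC 0 (2 * n) k n) := by
    rw [Pr_HC (2 * n) (n - k) (by push_cast; ring) (by omega) (hbox le_rfl (by omega) (by omega))]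
    exact hc _ _ (by omega) (by omega)
  have hG2 : c ≤ Pr E (VC k n 0 (2 * n)) := by
    rw [Pr_VC (n - k) (2 * n) (by omega) (by push_cast; ring) (hbox (by omega) le_rfl (by omega))]
    exact hc _ _ (by omega) (by omega)
  have hV : c ≤ Pr E (RV n k a) := Pr_RV (by omega) ha ha' hc (by omega)
  have hH : c ≤ Pr E (RH n k a) := Pr_RH (by omega) ha ha' hc (by omega)
  have hs0 : 0 ≤ sl (2 * n) K := Pr_nonneg _ _
  have i1 := inc_QA n
  have i2 := inc_TA n a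
  have i3 := inc_HC 0 (2 * n) k n
  have i4 := inc_VC k n 0 (2 * n)
  have i5 := inc_RV n k a
  have i6 := inc_RH n k a
  have f1 := pup_fkg i1 i2 hs0 hQ hT
  have j1 := pup_and i1 i2
  have f2 := pup_fkg j1 i3 hc0.le f1 hG1
  have j2 := pup_and j1 i3
  have f3 := pup_fkg j2 i4 hc0.le f2 hG2
  have j3 := pup_and j2 i4
  have f4 := pup_fkg j3 i5 hc0.le f3 hV
  have j4 := pup_and j3 i5
  have f5 := pup_fkg j4 i6 hc0.le f4 hH
  have e3 : piQ n * sl (2 * n) K * c ^ 4 = piQ n * sl (2 * n) K * c * c * c * c := by ring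
  rw [e3]
  refine f5.trans (Pr_mono fun ω hω hh => ?_)
  obtain ⟨⟨⟨⟨⟨w1, w2⟩, w3⟩, w4⟩, w5⟩, w6⟩ := hh
  exact geoT (k := k) (s := k) (by omega) (by omega) (by omega) ha ha' hω w1 w3 w4 w5 w6 w2

theorem low : ∃ C : ℝ, 0 < C ∧ ∀ n : ℕ, 1 ≤ n → ∀ K : ℕ, n * (piQ n * sl (2 * n) K) ≤ C := by
  obtain ⟨c, hc0, hc⟩ := rsw 8
  have hC : 0 < 1 / c ^ 4 := by positivity
  refine ⟨1 / c ^ 4 + 1, by positivity, fun n hn K => ?_⟩
  have hQ0 : 0 ≤ piQ n := Pr_nonneg _ _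
  have hH0 : 0 ≤ sl (2 * n) K := Pr_nonneg _ _
  rcases Nat.lt_or_ge n 2 with h8 | h8
  · have h1 : piQ n * sl (2 * n) K ≤ 1 := mul_le_one₀ (Pr_le_one _ _) hH0 (Pr_le_one _ _)
    have h2 : n = 1 := by omega
    have h3 : (n : ℝ) = 1 := by rw [h2]; norm_num
    rw [h3, one_mul]
    linarith
  · have hs := tri_sum (4 * n)
    have hsub : Finset.Icc (2 * n) (3 * n) ⊆ range (4 * n + 1) := by
      intro x hx
      rw [Finset.mem_Icc] at hx
      rw [Finset.mem_range]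
      omega
    have h1 := Finset.sum_le_sum_of_subset_of_nonneg (f := fun b : ℕ =>
      Pr (tri (4 * n)) (fun ω => (gr ω).Reachable (0, 0) (((4 * n : ℕ) : ℤ) - b, (b : ℤ)))) hsub
      (fun x _ _ => Pr_nonneg _ _)
    have h2 : ∑ _b ∈ Finset.Icc (2 * n) (3 * n), piQ n * sl (2 * n) K * c ^ 4
        ≤ ∑ b ∈ Finset.Icc (2 * n) (3 * n),
          Pr (tri (4 * n)) (fun ω => (gr ω).Reachable (0, 0) (((4 * n : ℕ) : ℤ) - b, (b : ℤ))) := by
      refine Finset.sum_le_sum fun b hb => ?_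
      rw [Finset.mem_Icc] at hb
      have h3 := low_pt hc0 hc h8 K (a := 4 * (n : ℤ) - b) (by omega) (by omega)
      have e1 : 4 * (n : ℤ) - (4 * n - b) = b := by ring
      have e2 : ((4 * n : ℕ) : ℤ) = 4 * (n : ℤ) := by push_cast; ring
      rw [e1] at h3
      rw [e2]
      exact h3
    rw [Finset.sum_const, nsmul_eq_mul, Nat.card_Icc] at h2
    have h3 : (n : ℝ) ≤ ((3 * n + 1 - 2 * n : ℕ) : ℝ) := by
      have : n ≤ 3 * n + 1 - 2 * n := by omega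
      exact_mod_cast this
    have h4 : (0 : ℝ) ≤ piQ n * sl (2 * n) K * c ^ 4 := by positivity
    have h5 := mul_le_mul_of_nonneg_right h3 h4
    have h6 : (n : ℝ) * (piQ n * sl (2 * n) K * c ^ 4) ≤ 1 :=
      h5.trans (h2.trans (h1.trans (le_of_eq hs)))
    have h7 : (n : ℝ) * (piQ n * sl (2 * n) K) ≤ 1 / c ^ 4 := by
      rw [le_div_iff₀ (by positivity)]
      calc (n : ℝ) * (piQ n * sl (2 * n) K) * c ^ 4 = (n : ℝ) * (piQ n * sl (2 * n) K * c ^ 4) := by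
            ring
        _ ≤ 1 := h6
    linarith

end FKG
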